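import Mathlib

/-! Families of homeomorphisms of the sphere with small supports. -/

namespace Pool.Agent.Q107.SphG

open Metric Module Set
open scoped NNReal

variable {X : Type*} [NormedAddCommGroup X] [NormedSpace ℝ X]

/-- push in the direction `v` near `c` -/
noncomputable def bump (c : X) (r : ℝ) (v : X) (x : X) : X := x + max 0 (r - ‖x - c‖) • v

theorem bump_approx {c v : X} {r : ℝ} (hv : ‖v‖ ≤ 1/2) :
    ApproximatesLinearOn (bump c r v) ((ContinuousLinearEquiv.refl ℝ X : X ≃L[ℝ] X) : X →L[ℝ] X)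
      univ (1/2 : ℝ≥0) := by
  rw [ApproximatesLinearOn]
  intro x _ y _
  have h1 : bump c r v x - bump c r v y -
      ((ContinuousLinearEquiv.refl ℝ X : X ≃L[ℝ] X) : X →L[ℝ] X) (x - y) =
      (max 0 (r - ‖x - c‖) - max 0 (r - ‖y - c‖)) • v := by
    simp only [bump, ContinuousLinearEquiv.coe_coe, ContinuousLinearEquiv.refl_apply, sub_smul]
    abel
  rw [h1, norm_smul]
  have h2 : ‖max 0 (r - ‖x - c‖) - max 0 (r - ‖y - c‖)‖ ≤ ‖x - y‖ := by
    rw [Real.norm_eq_abs, max_comm 0, max_comm 0]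
    refine (abs_max_sub_max_le_abs _ _ _).trans ?_
    rw [show r - ‖x - c‖ - (r - ‖y - c‖) = ‖y - c‖ - ‖x - c‖ by ring]
    refine (abs_norm_sub_norm_le _ _).trans ?_
    rw [show y - c - (x - c) = -(x - y) by abel, norm_neg]
  calc ‖max 0 (r - ‖x - c‖) - max 0 (r - ‖y - c‖)‖ * ‖v‖ ≤ ‖x - y‖ * (1/2) := by
        gcongr
    _ = ((1/2 : ℝ≥0) : ℝ) * ‖x - y‖ := by push_cast; ring

/-- the homeomorphism `bump` -/
noncomputable def bh [CompleteSpace X] (c : X) (r : ℝ) (v : X) (hv : ‖v‖ ≤ 1/2) : X ≃ₜ X :=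
  ApproximatesLinearOn.toHomeomorph (bump c r v) (bump_approx (c := c) (r := r) hv) (by
    rcases subsingleton_or_nontrivial X with h | h
    · exact Or.inl h
    · right
      have h1 : ‖((ContinuousLinearEquiv.refl ℝ X).symm : X →L[ℝ] X)‖₊ = 1 := by
        apply NNReal.coe_injective
        rw [coe_nnnorm]
        have : ((ContinuousLinearEquiv.refl ℝ X).symm : X →L[ℝ] X) = ContinuousLinearMap.id ℝ X :=
          rfl
        rw [this, ContinuousLinearMap.norm_id]
        rfl
      rw [h1, inv_one]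
      exact NNReal.half_lt_self one_ne_zero)

theorem bh_apply [CompleteSpace X] (c : X) (r : ℝ) (v : X) (hv : ‖v‖ ≤ 1/2) (x : X) :
    bh c r v hv x = x + max 0 (r - ‖x - c‖) • v := rfl

theorem bh_out [CompleteSpace X] (c : X) (r : ℝ) (v : X) (hv : ‖v‖ ≤ 1/2) {x : X}
    (hx : x ∉ ball c r) : bh c r v hv x = x := by
  rw [bh_apply, max_eq_left, zero_smul, add_zero]
  rw [mem_ball, dist_eq_norm, not_lt] at hx
  linarith

theorem comm_of_disjoint {Y : Type*} [TopologicalSpace Y] (f g : Y ≃ₜ Y) {A B : Set Y}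
    (hf : ∀ x, x ∉ A → f x = x) (hg : ∀ x, x ∉ B → g x = x) (h : Disjoint A B) :
    f * g = g * f := by
  have hfA : ∀ x ∈ A, f x ∈ A := by
    intro x hx
    by_contra h1
    have := f.injective (hf _ h1)
    rw [this] at h1
    exact h1 hx
  have hgB : ∀ x ∈ B, g x ∈ B := by
    intro x hx
    by_contra h1
    have := g.injective (hg _ h1)
    rw [this] at h1
    exact h1 hx
  ext x
  show f (g x) = g (f x)
  by_cases hxA : x ∈ A
  · rw [hg x (disjoint_left.mp h hxA), hg (f x) (disjoint_left.mp h (hfA x hxA))]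
  · rw [hf x hxA]
    by_cases hxB : x ∈ B
    · rw [hf (g x) (disjoint_right.mp h (hgB x hxB))]
    · rw [hg x hxB, hf x hxA]

/-- There are arbitrarily large families of pairs of homeomorphisms. -/
theorem exists_family [CompleteSpace X] [Nontrivial X] (k : ℕ) :
    ∃ a b : Fin k → (X ≃ₜ X), (∀ i, a i * b i ≠ b i * a i) ∧
      ∀ i j, i ≠ j → a i * b j = b j * a i := by
  obtain ⟨u, hu⟩ := exists_ne (0 : X)
  have hu' : 0 < ‖u‖ := norm_pos_iff.mpr hu
  set v : X := (1 / (2 * ‖u‖)) • u with hv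
  have hvn : ‖v‖ = 1/2 := by
    rw [hv, norm_smul, Real.norm_of_nonneg (by positivity)]; field_simp
  have hv0 : v ≠ 0 := by
    intro h; rw [h, norm_zero] at hvn; norm_num at hvn
  set c : Fin k → X := fun i => (10 * (i : ℝ)) • v with hc
  refine ⟨fun i => bh (c i) 1 v hvn.le, fun i => bh (c i + v) (1/4) v hvn.le, ?_, ?_⟩
  · intro i h
    have h1 := congrArg (fun f : X ≃ₜ X => f (c i)) h
    have e1 : bh (c i) 1 v hvn.le (c i) = c i + v := by
      rw [bh_apply, sub_self, norm_zero, sub_zero, max_eq_right zero_le_one, one_smul]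
    have e2 : bh (c i + v) (1/4) v hvn.le (c i) = c i := by
      apply bh_out
      rw [mem_ball, dist_eq_norm, show c i - (c i + v) = -v by abel, norm_neg, hvn]
      norm_num
    have e3 : bh (c i + v) (1/4) v hvn.le (c i + v) = c i + v + (1/4:ℝ) • v := by
      rw [bh_apply, sub_self, norm_zero, sub_zero, max_eq_right (by norm_num)]
    have h2 : bh (c i) 1 v hvn.le (bh (c i + v) (1/4) v hvn.le (c i)) =
      bh (c i + v) (1/4) v hvn.le (bh (c i) 1 v hvn.le (c i)) := h1
    rw [e2, e1, e3] at h2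
    have h3 : (1/4:ℝ) • v = 0 := by simpa using h2
    rcases smul_eq_zero.mp h3 with h4 | h4
    · norm_num at h4
    · exact hv0 h4
  · intro i j hij
    refine comm_of_disjoint _ _ (A := ball (c i) 1) (B := ball (c j + v) (1/4))
      (fun x hx => bh_out _ _ _ _ hx) (fun x hx => bh_out _ _ _ _ hx) ?_
    rw [Set.disjoint_left]
    intro x hx hx'
    rw [mem_ball, dist_eq_norm] at hx hx'
    have h1 : ‖c i - c j‖ ≤ ‖x - c i‖ + ‖x - (c j + v)‖ + ‖v‖ := by
      have : c i - c j = -(x - c i) + (x - (c j + v)) + v := by abel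
      rw [this]
      refine (norm_add_le _ _).trans ?_
      have := norm_add_le (-(x - c i)) (x - (c j + v))
      rw [norm_neg] at this
      linarith
    have h2 : ‖c i - c j‖ = 5 * |(i : ℝ) - (j : ℝ)| := by
      have : c i - c j = (10 * ((i : ℝ) - (j : ℝ))) • v := by
        rw [hc]; module
      rw [this, norm_smul, hvn, Real.norm_eq_abs, abs_mul]
      norm_num
      ring
    have h3 : (1:ℝ) ≤ |(i : ℝ) - (j : ℝ)| := by
      have h4 : (i : ℤ) - (j : ℤ) ≠ 0 := by
        intro h5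
        apply hij
        apply Fin.ext
        omega
      have h5 : (1:ℤ) ≤ |(i : ℤ) - (j : ℤ)| := Int.one_le_abs h4
      exact_mod_cast h5
    rw [h2, hvn] at h1
    linarith

end Pool.Agent.Q107.SphG
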