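import Mathlib

/-! Discs cut out of the closed unit ball by hyperplanes, and the separation lemma. -/

namespace Pool.Agent.Q107.SphG

open Metric Module

variable {V : Type*} [NormedAddCommGroup V] [InnerProductSpace ℝ V]

/-- The intersection of the closed unit ball with the hyperplane `⟪n, x⟫ = c`. -/
def D (n : V) (c : ℝ) : Set V := {x | ‖x‖ ≤ 1 ∧ inner ℝ n x = c}

/-- The discs: `D n c` with `|c| < ‖n‖`. -/
def IsDisc (A : Set V) : Prop := ∃ (n : V) (c : ℝ), |c| < ‖n‖ ∧ A = D n c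

theorem mem_D {n x : V} {c : ℝ} : x ∈ D n c ↔ ‖x‖ ≤ 1 ∧ inner ℝ n x = c := Iff.rfl

theorem D_neg (n : V) (c : ℝ) : D (-n) (-c) = D n c := by
  ext x
  rw [mem_D, mem_D, inner_neg_left, neg_inj]

theorem isDisc_D {n : V} {c : ℝ} (h : |c| < ‖n‖) : IsDisc (D n c) := ⟨n, c, h, rfl⟩

theorem exists_int {n : V} {c : ℝ} (h : |c| < ‖n‖) : ∃ x : V, ‖x‖ < 1 ∧ inner ℝ n x = c := by
  have hn : 0 < ‖n‖ := lt_of_le_of_lt (abs_nonneg _) h
  refine ⟨(c / ‖n‖ ^ 2) • n, ?_, ?_⟩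
  · rw [norm_smul, Real.norm_eq_abs, abs_div, abs_of_pos (by positivity : (0:ℝ) < ‖n‖ ^ 2)]
    rw [div_mul_eq_mul_div, div_lt_one (by positivity)]
    nlinarith [abs_nonneg c]
  · rw [inner_smul_right, real_inner_self_eq_norm_sq]
    field_simp

theorem exists_orth [FiniteDimensional ℝ V] (h2 : 2 ≤ finrank ℝ V) (n : V) :
    ∃ v : V, v ≠ 0 ∧ inner ℝ n v = 0 := by
  have h1 : finrank ℝ (ℝ ∙ n) ≤ 1 := by
    refine (finrank_span_le_card ({n} : Set V)).trans ?_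
    simp
  have h3 := Submodule.finrank_add_finrank_orthogonal (ℝ ∙ n)
  have h4 : (ℝ ∙ n)ᗮ ≠ ⊥ := by
    intro h
    rw [h, finrank_bot] at h3
    omega
  obtain ⟨v, hv, hv0⟩ := Submodule.exists_mem_ne_zero_of_ne_bot h4
  exact ⟨v, hv0, Submodule.mem_orthogonal_singleton_iff_inner_right.mp hv⟩

theorem chord {a v : V} (ha : ‖a‖ ≤ 1) (hv : v ≠ 0) : ∃ t : ℝ, 0 ≤ t ∧ ‖a + t • v‖ = 1 := by
  have hv' : 0 < ‖v‖ := norm_pos_iff.mpr hv
  have hc : ContinuousOn (fun t : ℝ => ‖a + t • v‖) (Set.Icc 0 (2 / ‖v‖)) := by fun_prop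
  have h := intermediate_value_Icc (by positivity : (0:ℝ) ≤ 2 / ‖v‖) hc
  have h1 : (1 : ℝ) ∈ Set.Icc ‖a + (0:ℝ) • v‖ ‖a + (2 / ‖v‖) • v‖ := by
    refine ⟨by simpa using ha, ?_⟩
    have h2 : ‖(2 / ‖v‖) • v‖ = 2 := by
      rw [norm_smul, Real.norm_of_nonneg (by positivity)]
      field_simp
    have h3 : ‖(2 / ‖v‖) • v‖ ≤ ‖a + (2 / ‖v‖) • v‖ + ‖a‖ := by
      have := norm_sub_le (a + (2 / ‖v‖) • v) a
      simpa using this
    linarith
  obtain ⟨t, ht, hte⟩ := h h1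
  exact ⟨t, ht.1, hte⟩

theorem exists_sphere_pos [FiniteDimensional ℝ V] (h2 : 2 ≤ finrank ℝ V) {n m a : V} {c e : ℝ}
    (ha : a ∈ D n c) (h : e < inner ℝ m a) : ∃ b ∈ D n c, ‖b‖ = 1 ∧ e < inner ℝ m b := by
  obtain ⟨v, hv, hnv⟩ := exists_orth h2 n
  wlog hm : 0 ≤ inner ℝ m v generalizing v
  · refine this (-v) (neg_ne_zero.mpr hv) (by rw [inner_neg_right, hnv, neg_zero]) ?_
    rw [inner_neg_right]; linarith [not_le.mp hm]
  obtain ⟨t, ht, hte⟩ := chord ha.1 hv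
  refine ⟨a + t • v, ⟨hte.le, ?_⟩, hte, ?_⟩
  · rw [inner_add_right, inner_smul_right, hnv, ha.2]; ring
  · rw [inner_add_right, inner_smul_right]
    nlinarith

/-- Small steps from an interior point stay in the disc. -/
theorem exists_step {x v : V} (hx : ‖x‖ < 1) : ∃ ε : ℝ, 0 < ε ∧ ‖x + ε • v‖ ≤ 1 := by
  refine ⟨(1 - ‖x‖) / (‖v‖ + 1), by have := norm_nonneg v; apply div_pos <;> linarith, ?_⟩
  have hv := norm_nonneg v
  calc ‖x + ((1 - ‖x‖) / (‖v‖ + 1)) • v‖ ≤ ‖x‖ + ‖((1 - ‖x‖) / (‖v‖ + 1)) • v‖ := norm_add_le _ _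
    _ = ‖x‖ + (1 - ‖x‖) / (‖v‖ + 1) * ‖v‖ := by
        rw [norm_smul, Real.norm_of_nonneg (div_nonneg (by linarith) (by linarith))]
    _ ≤ ‖x‖ + (1 - ‖x‖) := by
        gcongr
        rw [div_mul_eq_mul_div, div_le_iff₀ (by linarith)]
        nlinarith
    _ = 1 := by ring

theorem prop_of_orth {n m : V} (hn : n ≠ 0) (h : ∀ v : V, inner ℝ n v = 0 → inner ℝ m v = 0) :
    ∃ l : ℝ, m = l • n := by
  have hn' : (0:ℝ) < ‖n‖ ^ 2 := by have := norm_pos_iff.mpr hn; positivity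
  set l : ℝ := inner ℝ n m / ‖n‖ ^ 2 with hl
  refine ⟨l, ?_⟩
  have h1 : inner ℝ n (m - l • n) = 0 := by
    rw [inner_sub_right, inner_smul_right, real_inner_self_eq_norm_sq, hl]
    field_simp
    ring
  have h2 := h _ h1
  have h3 : inner ℝ (m - l • n) (m - l • n) = (0:ℝ) := by
    rw [inner_sub_left, inner_smul_left, h2, h1]; simp
  exact sub_eq_zero.mp (inner_self_eq_zero.mp h3)

theorem subset_eq {A B : Set V} (hA : IsDisc A) (hB : IsDisc B) (h : A ⊆ B) : A = B := by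
  obtain ⟨n, c, hn, rfl⟩ := hA
  obtain ⟨m, e, hm, rfl⟩ := hB
  have hn0 : n ≠ 0 := by
    rintro rfl
    rw [norm_zero] at hn
    linarith [abs_nonneg c]
  obtain ⟨x, hx, hxn⟩ := exists_int hn
  have hxe : inner ℝ m x = e := (h ⟨hx.le, hxn⟩).2
  obtain ⟨l, hl⟩ : ∃ l : ℝ, m = l • n := by
    refine prop_of_orth hn0 fun v hv => ?_
    obtain ⟨ε, hε, hε1⟩ := exists_step (v := v) hx
    have h1 : inner ℝ m (x + ε • v) = e := (h ⟨hε1, by
      rw [inner_add_right, inner_smul_right, hv, hxn]; ring⟩).2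
    rw [inner_add_right, inner_smul_right, hxe] at h1
    have h2 : ε * inner ℝ m v = 0 := by linarith
    rcases mul_eq_zero.mp h2 with h3 | h3
    · exact absurd h3 hε.ne'
    · exact h3
  have hl0 : l ≠ 0 := by
    rintro rfl
    rw [hl, zero_smul, norm_zero] at hm
    linarith [abs_nonneg e]
  have he : e = l * c := by rw [← hxe, hl, inner_smul_left, hxn]; simp
  ext y
  rw [mem_D, mem_D, hl, he, inner_smul_left]
  simp [hl0]

theorem isCompact_D [FiniteDimensional ℝ V] (n : V) (c : ℝ) : IsCompact (D n c) := by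
  have : D n c = closedBall 0 1 ∩ {x | inner ℝ n x = c} := by
    ext x; simp [D]
  rw [this]
  exact (isCompact_closedBall 0 1).inter_right
    (isClosed_eq (by fun_prop) continuous_const)

theorem convex_D (n : V) (c : ℝ) : Convex ℝ (D n c) := by
  intro x hx y hy a b ha hb hab
  refine ⟨?_, ?_⟩
  · calc ‖a • x + b • y‖ ≤ ‖a • x‖ + ‖b • y‖ := norm_add_le _ _
      _ = a * ‖x‖ + b * ‖y‖ := by
        rw [norm_smul, norm_smul, Real.norm_of_nonneg ha, Real.norm_of_nonneg hb]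
      _ ≤ a * 1 + b * 1 := by gcongr; exacts [hx.1, hy.1]
      _ = 1 := by linarith
  · rw [inner_add_right, inner_smul_right, inner_smul_right, hx.2, hy.2, ← add_mul, hab, one_mul]

theorem inner_lt_one {a b : V} (ha : ‖a‖ = 1) (hb : ‖b‖ ≤ 1) (hab : a ≠ b) :
    inner ℝ a b < 1 := by
  have h1 : 0 < ‖a - b‖ := norm_pos_iff.mpr (sub_ne_zero.mpr hab)
  have h2 := norm_sub_sq_real a b
  have h3 := norm_nonneg b
  nlinarith

theorem norm_mid_lt {a b : V} (ha : ‖a‖ = 1) (hb : ‖b‖ ≤ 1) (hab : a ≠ b) :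
    ‖(1/2:ℝ) • a + (1/2:ℝ) • b‖ < 1 := by
  have h1 := inner_lt_one ha hb hab
  have h2 := norm_add_sq_real ((1/2:ℝ) • a) ((1/2:ℝ) • b)
  rw [inner_smul_left, inner_smul_right, norm_smul, norm_smul] at h2
  simp only [conj_trivial, Real.norm_eq_abs] at h2
  rw [abs_of_pos (by norm_num : (0:ℝ) < 1/2)] at h2
  have h3 := norm_nonneg ((1/2:ℝ) • a + (1/2:ℝ) • b)
  have h4 := norm_nonneg b
  nlinarith

/-- Two points of the sphere on the same side of a disc lie on a disc which avoids it. -/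
theorem exists_avoid [FiniteDimensional ℝ V] {n a b : V} {c : ℝ} (hnc : |c| < ‖n‖)
    (ha : ‖a‖ = 1) (hb : ‖b‖ = 1) (hab : a ≠ b) (hfa : c < inner ℝ n a) (hfb : c < inner ℝ n b) :
    ∃ X : Set V, IsDisc X ∧ a ∈ X ∧ b ∈ X ∧ ∀ x ∈ X, x ∉ D n c := by
  have hdisj : Disjoint (D n c) (line[ℝ, a, b] : Set V) := by
    rw [Set.disjoint_left]
    rintro x hx hxl
    obtain ⟨r, hr⟩ := mem_affineSpan_pair_iff_exists_lineMap_eq.mp hxl
    rw [AffineMap.lineMap_apply, vsub_eq_sub, vadd_eq_add] at hr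
    have hab1 := inner_lt_one ha hb.le hab
    have hr2 : ‖x‖ ^ 2 = 1 - 2 * (r * (1 - r)) * (1 - inner ℝ a b) := by
      have h1 : x = (1 - r) • a + r • b := by rw [← hr]; module
      rw [h1, norm_add_sq_real, inner_smul_left, inner_smul_right, norm_smul, norm_smul, ha, hb]
      simp only [conj_trivial, Real.norm_eq_abs, mul_one, sq_abs]
      ring
    have hx1 := hx.1
    have hx2 := hx.2
    have hr3 : 0 ≤ r * (1 - r) := by
      by_contra hneg
      push Not at hneg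
      have : 1 < ‖x‖ ^ 2 := by nlinarith
      nlinarith [norm_nonneg x]
    have hr0 : 0 ≤ r := by nlinarith
    have hr1 : r ≤ 1 := by nlinarith
    rw [← hr, inner_add_right, inner_smul_right, inner_sub_right] at hx2
    have e1 : (1 - r) * (inner ℝ n a - c) + r * (inner ℝ n b - c) = 0 := by linarith
    have e2 : 0 ≤ r * (inner ℝ n b - c) := mul_nonneg hr0 (by linarith)
    rcases hr1.lt_or_eq with h3 | h3
    · have := mul_pos (by linarith : 0 < 1 - r) (by linarith : 0 < inner ℝ n a - c)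
      linarith
    · subst h3; linarith
  obtain ⟨f, u, v, hfu, huv, hfv⟩ := geometric_hahn_banach_compact_closed (convex_D n c)
    (isCompact_D n c) (AffineSubspace.convex (line[ℝ, a, b]))
    (AffineSubspace.closed_of_finiteDimensional _) hdisj
  have hline : ∀ r : ℝ, v < f a + r * (f b - f a) := by
    intro r
    have := hfv _ (AffineMap.lineMap_mem_affineSpan_pair r a b)
    rw [AffineMap.lineMap_apply, vsub_eq_sub, vadd_eq_add, map_add, map_smul, map_sub] at this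
    simpa [add_comm] using this
  have hfab : f b = f a := by
    by_contra hne
    have h0 : f b - f a ≠ 0 := sub_ne_zero.mpr hne
    have := hline ((v - f a) / (f b - f a))
    rw [div_mul_cancel₀ _ h0] at this
    linarith
  obtain ⟨m, hm⟩ : ∃ m : V, ∀ x, f x = inner ℝ m x :=
    ⟨(InnerProductSpace.toDual ℝ V).symm f, fun x => by
      rw [InnerProductSpace.toDual_symm_apply]⟩
  obtain ⟨x0, hx0, hx0n⟩ := exists_int hnc
  have hm0 : m ≠ 0 := by
    rintro rfl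
    have h1 := hfu x0 ⟨hx0.le, hx0n⟩
    have h2 := hline 0
    simp only [hm, inner_zero_left] at h1 h2
    linarith
  have hmid := norm_mid_lt ha hb.le hab
  have hmide : inner ℝ m ((1/2:ℝ) • a + (1/2:ℝ) • b) = inner ℝ m a := by
    rw [inner_add_right, inner_smul_right, inner_smul_right, ← hm b, hfab, ← hm a]; ring
  refine ⟨D m (inner ℝ m a), ⟨m, _, ?_, rfl⟩, ⟨ha.le, rfl⟩, ⟨hb.le, ?_⟩, ?_⟩
  · rw [← hmide]
    calc |inner ℝ m ((1/2:ℝ) • a + (1/2:ℝ) • b)| ≤ ‖m‖ * ‖(1/2:ℝ) • a + (1/2:ℝ) • b‖ :=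
        abs_real_inner_le_norm _ _
      _ < ‖m‖ * 1 := by
        have := norm_pos_iff.mpr hm0
        gcongr
      _ = ‖m‖ := mul_one _
  · rw [← hm, hfab, hm]
  · intro x hx hxn
    have h1 := hfu x hxn
    have h2 := hline 0
    rw [hm, hx.2] at h1
    rw [hm, hm] at h2
    linarith

theorem exists_second [FiniteDimensional ℝ V] (h2 : 2 ≤ finrank ℝ V) {n a : V} {c : ℝ}
    (hnc : |c| < ‖n‖) (ha : ‖a‖ = 1) (hfa : c < inner ℝ n a) :
    ∃ b : V, ‖b‖ = 1 ∧ a ≠ b ∧ c < inner ℝ n b := by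
  obtain ⟨x0, hx0, hx0n⟩ := exists_int hnc
  have hne : a ≠ x0 := by rintro rfl; linarith
  set p := (1/2:ℝ) • a + (1/2:ℝ) • x0 with hp
  have hp1 : ‖p‖ < 1 := norm_mid_lt ha hx0.le hne
  have hpn : c < inner ℝ n p := by
    rw [hp, inner_add_right, inner_smul_right, inner_smul_right, hx0n]; linarith
  obtain ⟨v, hv, hnv⟩ := exists_orth h2 n
  obtain ⟨t, ht, hte⟩ := chord hp1.le hv
  obtain ⟨s, hs, hse⟩ := chord hp1.le (neg_ne_zero.mpr hv)
  have ht0 : t ≠ 0 := by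
    rintro rfl
    rw [zero_smul, add_zero] at hte
    linarith
  have e1 : inner ℝ n (p + t • v) = inner ℝ n p := by
    rw [inner_add_right, inner_smul_right, hnv]; ring
  have e2 : inner ℝ n (p + s • (-v)) = inner ℝ n p := by
    rw [inner_add_right, inner_smul_right, inner_neg_right, hnv]; ring
  by_cases h : a = p + t • v
  · refine ⟨p + s • (-v), hse, ?_, by rw [e2]; exact hpn⟩
    rw [h]
    intro h'
    have h1 : (t + s) • v = 0 := by
      have h3 : t • v = s • (-v) := add_left_cancel h'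
      rw [add_smul, h3]; simp
    rcases smul_eq_zero.mp h1 with h3 | h3
    · exact ht0 (by linarith)
    · exact hv h3
  · exact ⟨p + t • v, hte, h, by rw [e1]; exact hpn⟩

theorem exists_same_side [FiniteDimensional ℝ V] (h2 : 2 ≤ finrank ℝ V) {A B : Set V}
    (hA : IsDisc A) (hB : IsDisc B) {n : V} {c : ℝ} (hnc : |c| < ‖n‖)
    (ha : ∃ a ∈ A, c < inner ℝ n a) (hb : ∃ b ∈ B, c < inner ℝ n b) :
    ∃ X : Set V, IsDisc X ∧ (X ∩ A).Nonempty ∧ (X ∩ B).Nonempty ∧ ¬ (X ∩ D n c).Nonempty := by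
  obtain ⟨nA, cA, hnA, rfl⟩ := hA
  obtain ⟨nB, cB, hnB, rfl⟩ := hB
  obtain ⟨a0, ha0, ha0c⟩ := ha
  obtain ⟨b0, hb0, hb0c⟩ := hb
  obtain ⟨a, haA, ha1, hac⟩ := exists_sphere_pos h2 ha0 ha0c
  obtain ⟨b, hbB, hb1, hbc⟩ := exists_sphere_pos h2 hb0 hb0c
  by_cases hab : a = b
  · obtain ⟨b', hb'1, hab', hb'c⟩ := exists_second h2 hnc ha1 hac
    obtain ⟨X, hX, haX, -, hXn⟩ := exists_avoid hnc ha1 hb'1 hab' hac hb'c
    exact ⟨X, hX, ⟨a, haX, haA⟩, ⟨a, haX, hab ▸ hbB⟩, fun ⟨x, hx, hx'⟩ => hXn x hx hx'⟩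
  · obtain ⟨X, hX, haX, hbX, hXn⟩ := exists_avoid hnc ha1 hb1 hab hac hbc
    exact ⟨X, hX, ⟨a, haX, haA⟩, ⟨b, hbX, hbB⟩, fun ⟨x, hx, hx'⟩ => hXn x hx hx'⟩

theorem exists_ne {A : Set V} (hA : IsDisc A) {n : V} {c : ℝ} (hnc : |c| < ‖n‖)
    (hne : A ≠ D n c) : ∃ a ∈ A, inner ℝ n a ≠ c := by
  by_contra h
  push Not at h
  have hsub : A ⊆ D n c := by
    intro x hx
    refine ⟨?_, h x hx⟩
    obtain ⟨m, e, -, rfl⟩ := hA
    exact hx.1
  exact hne (subset_eq hA (isDisc_D hnc) hsub)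

/-- The separation lemma. -/
theorem sep_iff [FiniteDimensional ℝ V] (h2 : 2 ≤ finrank ℝ V) {A B : Set V} (hA : IsDisc A)
    (hB : IsDisc B) {n : V} {c : ℝ} (hnc : |c| < ‖n‖) (hAC : A ≠ D n c) (hBC : B ≠ D n c) :
    (∀ X : Set V, IsDisc X → (X ∩ A).Nonempty → (X ∩ B).Nonempty → (X ∩ D n c).Nonempty) ↔
      ((∀ x ∈ A, c ≤ inner ℝ n x) ∧ (∀ x ∈ B, inner ℝ n x ≤ c)) ∨
      ((∀ x ∈ A, inner ℝ n x ≤ c) ∧ (∀ x ∈ B, c ≤ inner ℝ n x)) := by
  constructor
  · intro h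
    by_contra hcon
    obtain ⟨a, haA, ha⟩ := exists_ne hA hnc hAC
    obtain ⟨b, hbB, hb⟩ := exists_ne hB hnc hBC
    have key1 : ¬ ((∃ a ∈ A, c < inner ℝ n a) ∧ (∃ b ∈ B, c < inner ℝ n b)) := by
      rintro ⟨h1, h3⟩
      obtain ⟨X, hX, hXA, hXB, hXn⟩ := exists_same_side h2 hA hB hnc h1 h3
      exact hXn (h X hX hXA hXB)
    have key2 : ¬ ((∃ a ∈ A, inner ℝ n a < c) ∧ (∃ b ∈ B, inner ℝ n b < c)) := by
      rintro ⟨⟨x, hx, hxc⟩, ⟨y, hy, hyc⟩⟩
      obtain ⟨X, hX, hXA, hXB, hXn⟩ := exists_same_side h2 hA hB (n := -n) (c := -c)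
        (by rw [abs_neg, norm_neg]; exact hnc)
        ⟨x, hx, by rw [inner_neg_left]; linarith⟩ ⟨y, hy, by rw [inner_neg_left]; linarith⟩
      rw [D_neg] at hXn
      exact hXn (h X hX hXA hXB)
    push Not at hcon key1 key2
    obtain ⟨hc1, hc2⟩ := hcon
    rcases lt_or_gt_of_ne ha with ha' | ha'
    · -- a < c
      have hB' := key2 ⟨a, haA, ha'⟩
      have hbc : c < inner ℝ n b := lt_of_le_of_ne (hB' b hbB) (Ne.symm hb)
      have hA' : ∀ x ∈ A, inner ℝ n x ≤ c := by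
        intro x hx
        by_contra hx'
        have := key1 ⟨x, hx, not_le.mp hx'⟩ b hbB
        linarith
      obtain ⟨y, hy, hyc⟩ := hc2 hA'
      linarith [hB' y hy]
    · have hB' := key1 ⟨a, haA, ha'⟩
      have hbc : inner ℝ n b < c := lt_of_le_of_ne (hB' b hbB) hb
      have hA' : ∀ x ∈ A, c ≤ inner ℝ n x := by
        intro x hx
        by_contra hx'
        have := key2 ⟨x, hx, not_le.mp hx'⟩ b hbB
        linarith
      obtain ⟨y, hy, hyc⟩ := hc1 hA'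
      linarith [hB' y hy]
  · rintro h X hX ⟨x, hxX, hxA⟩ ⟨y, hyX, hyB⟩
    obtain ⟨m, e, hm, rfl⟩ := hX
    -- the segment from x to y crosses the hyperplane
    have hxy : ∃ r : ℝ, 0 ≤ r ∧ r ≤ 1 ∧ inner ℝ n ((1 - r) • x + r • y) = c := by
      have hf : ContinuousOn (fun r : ℝ => inner ℝ n ((1 - r) • x + r • y)) (Set.Icc 0 1) := by
        fun_prop
      rcases h with ⟨h1, h3⟩ | ⟨h1, h3⟩
      · have := intermediate_value_Icc' (zero_le_one) hf
        obtain ⟨r, hr, hre⟩ := this (show c ∈ Set.Icc _ _ from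
          ⟨by simpa using h3 y hyB, by simpa using h1 x hxA⟩)
        exact ⟨r, hr.1, hr.2, hre⟩
      · have := intermediate_value_Icc (zero_le_one) hf
        obtain ⟨r, hr, hre⟩ := this (show c ∈ Set.Icc _ _ from
          ⟨by simpa using h1 x hxA, by simpa using h3 y hyB⟩)
        exact ⟨r, hr.1, hr.2, hre⟩
    obtain ⟨r, hr0, hr1, hr⟩ := hxy
    have hmem := convex_D m e hxX hyX (by linarith : (0:ℝ) ≤ 1 - r) hr0 (by ring)
    exact ⟨_, hmem, hmem.1, hr⟩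

end Pool.Agent.Q107.SphG
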