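import Pool.Agent.Q107.SphG.Disc

/-! Points of the sphere are recognised by the meeting relation of discs. -/

namespace Pool.Agent.Q107.SphG

open Metric Module

variable {V : Type*} [NormedAddCommGroup V] [InnerProductSpace ℝ V]

/-- The type of discs. -/
abbrev Dsc (V : Type*) [NormedAddCommGroup V] [InnerProductSpace ℝ V] := {A : Set V // IsDisc A}

def meets (A B : Dsc V) : Prop := (A.1 ∩ B.1).Nonempty

def Bet (A C B : Dsc V) : Prop := A ≠ C ∧ B ≠ C ∧ ∀ X : Dsc V, meets X A → meets X B → meets X C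

/-- sign normalised separation -/
theorem Bet.sep [FiniteDimensional ℝ V] (h2 : 2 ≤ finrank ℝ V) {A C B : Dsc V} (h : Bet A C B) :
    ∃ (n : V) (c : ℝ), |c| < ‖n‖ ∧ C.1 = D n c ∧ (∀ x ∈ A.1, c ≤ inner ℝ n x) ∧
      (∀ x ∈ B.1, inner ℝ n x ≤ c) := by
  obtain ⟨n, c, hnc, hC⟩ := C.2
  have h1 : A.1 ≠ D n c := fun h' => h.1 (Subtype.ext (h'.trans hC.symm))
  have h3 : B.1 ≠ D n c := fun h' => h.2.1 (Subtype.ext (h'.trans hC.symm))
  have h4 := (sep_iff h2 A.2 B.2 hnc h1 h3).mp (by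
    intro X hX hXA hXB
    have := h.2.2 ⟨X, hX⟩ hXA hXB
    unfold meets at this
    rwa [hC] at this)
  rcases h4 with h4 | h4
  · exact ⟨n, c, hnc, hC, h4.1, h4.2⟩
  · refine ⟨-n, -c, by rw [abs_neg, norm_neg]; exact hnc, by rw [D_neg]; exact hC, ?_, ?_⟩
    · intro x hx
      rw [inner_neg_left]; linarith [h4.1 x hx]
    · intro x hx
      rw [inner_neg_left]; linarith [h4.2 x hx]

theorem bet_of_sep [FiniteDimensional ℝ V] (h2 : 2 ≤ finrank ℝ V) {A C B : Dsc V} (h1 : A ≠ C)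
    (h3 : B ≠ C) {n : V} {c : ℝ} (hnc : |c| < ‖n‖) (hC : C.1 = D n c)
    (hA : ∀ x ∈ A.1, c ≤ inner ℝ n x) (hB : ∀ x ∈ B.1, inner ℝ n x ≤ c) : Bet A C B := by
  have h4 : A.1 ≠ D n c := fun h' => h1 (Subtype.ext (h'.trans hC.symm))
  have h5 : B.1 ≠ D n c := fun h' => h3 (Subtype.ext (h'.trans hC.symm))
  have h6 := (sep_iff h2 A.2 B.2 hnc h4 h5).mpr (Or.inl ⟨hA, hB⟩)
  refine ⟨h1, h3, fun X hXA hXB => ?_⟩
  have := h6 X.1 X.2 hXA hXB
  unfold meets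
  rwa [hC]

theorem mem_norm_le {A : Dsc V} {x : V} (hx : x ∈ A.1) : ‖x‖ ≤ 1 := by
  obtain ⟨n, c, -, hA⟩ := A.2
  rw [hA] at hx
  exact hx.1

theorem dsc_convex (A : Dsc V) : Convex ℝ A.1 := by
  obtain ⟨n, c, -, hA⟩ := A.2
  rw [hA]
  exact convex_D n c

/-- If a disc `A` is on one side of the hyperplane and touches it in an interior point, it is in
the hyperplane. -/
theorem touch {A : Dsc V} {n x : V} {c : ℝ} (hs : ∀ y ∈ A.1, c ≤ inner ℝ n y) (hx : x ∈ A.1)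
    (hxc : inner ℝ n x = c) (hx1 : ‖x‖ < 1) : ∀ y ∈ A.1, inner ℝ n y = c := by
  obtain ⟨m, e, hm, hA⟩ := A.2
  intro y hy
  refine le_antisymm ?_ (hs y hy)
  obtain ⟨ε, hε, hε1⟩ := exists_step (v := x - y) hx1
  have hmem : x + ε • (x - y) ∈ A.1 := by
    rw [hA] at hx hy ⊢
    refine ⟨hε1, ?_⟩
    rw [inner_add_right, inner_smul_right, inner_sub_right, hx.2, hy.2]; ring
  have := hs _ hmem
  rw [inner_add_right, inner_smul_right, inner_sub_right, hxc] at this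
  nlinarith

/-- The point of tangency. -/
theorem point_of_bet [FiniteDimensional ℝ V] (h2 : 2 ≤ finrank ℝ V) {A B : Dsc V}
    (h : ∃ C, Bet A B C ∧ meets C A) :
    ∃ p : V, ‖p‖ = 1 ∧ p ∈ A.1 ∧ p ∈ B.1 ∧ ∀ x, x ∈ A.1 → x ∈ B.1 → x = p := by
  obtain ⟨C, hC, p, hpC, hpA⟩ := h
  obtain ⟨n, c, hnc, hB, hsA, hsC⟩ := hC.sep h2
  have hpc : inner ℝ n p = c := le_antisymm (hsC p hpC) (hsA p hpA)
  have hpB : p ∈ B.1 := by rw [hB]; exact ⟨mem_norm_le hpA, hpc⟩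
  have key : ∀ x, x ∈ A.1 → x ∈ B.1 → ‖x‖ = 1 := by
    intro x hxA hxB
    by_contra hx1
    have hx1' : ‖x‖ < 1 := lt_of_le_of_ne (mem_norm_le hxA) hx1
    have hxc : inner ℝ n x = c := by rw [hB] at hxB; exact hxB.2
    have h3 := touch hsA hxA hxc hx1'
    apply hC.1
    apply Subtype.ext
    apply subset_eq A.2 B.2
    intro y hy
    rw [hB]
    exact ⟨mem_norm_le hy, h3 y hy⟩
  refine ⟨p, key p hpA hpB, hpA, hpB, fun x hxA hxB => ?_⟩
  by_contra hne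
  have h1 := norm_mid_lt (key x hxA hxB) (key p hpA hpB).le hne
  have hm1 : (1/2:ℝ) • x + (1/2:ℝ) • p ∈ A.1 :=
    dsc_convex A hxA hpA (by norm_num) (by norm_num) (by norm_num)
  have hm2 : (1/2:ℝ) • x + (1/2:ℝ) • p ∈ B.1 :=
    dsc_convex B hxB hpB (by norm_num) (by norm_num) (by norm_num)
  have h3 := key _ hm1 hm2
  rw [h3] at h1
  exact lt_irrefl _ h1

theorem valid_t {n p : V} {c : ℝ} (t : ℝ) (hnc : |c| < ‖n‖) (hp : ‖p‖ = 1)
    (hpn : inner ℝ n p = c) : |c - t| < ‖n - t • p‖ := by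
  have h1 : ‖n - t • p‖ ^ 2 = ‖n‖ ^ 2 - 2 * (t * c) + t ^ 2 := by
    rw [norm_sub_sq_real, inner_smul_right, hpn, norm_smul, hp, Real.norm_eq_abs, mul_one, sq_abs]
  have h2 : |c| ^ 2 < ‖n‖ ^ 2 := by
    have := abs_nonneg c
    gcongr
  rw [sq_abs] at h2
  apply lt_of_pow_lt_pow_left₀ 2 (norm_nonneg _)
  rw [sq_abs, h1]
  nlinarith

theorem mem_t {n p x : V} {c t : ℝ} :
    x ∈ D (n - t • p) (c - t) ↔ ‖x‖ ≤ 1 ∧ inner ℝ n x - c = -(t * (1 - inner ℝ p x)) := by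
  rw [mem_D, inner_sub_left, inner_smul_left]
  simp only [conj_trivial]
  constructor
  · rintro ⟨h1, h2⟩; exact ⟨h1, by linarith⟩
  · rintro ⟨h1, h2⟩; exact ⟨h1, by linarith⟩

theorem inner_le_one {p x : V} (hp : ‖p‖ = 1) (hx : ‖x‖ ≤ 1) : inner ℝ p x ≤ 1 := by
  have := real_inner_le_norm p x
  rw [hp, one_mul] at this
  linarith

/-- For large `t` the disc `D (n - t p) (c - t)` is close to `p`. -/
theorem small_t {n p : V} {c ε t : ℝ} (hnc : |c| < ‖n‖) (hp : ‖p‖ = 1) (hε : 0 < ε)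
    (ht : 4 * ‖n‖ / ε ^ 2 < t) : ∀ x ∈ D (n - t • p) (c - t), ‖x - p‖ < ε := by
  intro x hx
  rw [mem_t] at hx
  have hn : 0 ≤ ‖n‖ := norm_nonneg n
  have ht0 : 0 < t := lt_of_le_of_lt (by positivity) ht
  have h1 : |inner ℝ n x| ≤ ‖n‖ := by
    have := abs_real_inner_le_norm n x
    nlinarith [hx.1]
  have h2 : t * (1 - inner ℝ p x) < 2 * ‖n‖ := by
    have h3 : t * (1 - inner ℝ p x) = c - inner ℝ n x := by linarith [hx.2]
    rw [h3]
    have := (abs_le.mp h1).1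
    have := le_abs_self c
    linarith
  have h3 : ‖x - p‖ ^ 2 ≤ 2 * (1 - inner ℝ p x) := by
    rw [norm_sub_sq_real, hp, real_inner_comm]
    nlinarith [hx.1, norm_nonneg x]
  have h4 : 4 * ‖n‖ < t * ε ^ 2 := by
    rwa [div_lt_iff₀ (by positivity)] at ht
  have h5 : t * ‖x - p‖ ^ 2 < t * ε ^ 2 := by nlinarith
  have h6 : ‖x - p‖ ^ 2 < ε ^ 2 := lt_of_mul_lt_mul_left h5 ht0.le
  exact lt_of_pow_lt_pow_left₀ 2 hε.le h6

theorem isClosed_dsc [FiniteDimensional ℝ V] (A : Dsc V) : IsClosed A.1 := by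
  obtain ⟨n, c, -, hA⟩ := A.2
  rw [hA]
  exact (isCompact_D n c).isClosed

/-- a disc contains more than one point -/
theorem exists_other [FiniteDimensional ℝ V] (h2 : 2 ≤ finrank ℝ V) (A : Dsc V) (p : V) :
    ∃ x ∈ A.1, x ≠ p := by
  obtain ⟨n, c, hnc, hA⟩ := A.2
  obtain ⟨x, hx, hxn⟩ := exists_int hnc
  obtain ⟨v, hv, hnv⟩ := exists_orth h2 n
  obtain ⟨ε, hε, hε1⟩ := exists_step (v := v) hx
  have hmem1 : x ∈ A.1 := by rw [hA]; exact ⟨hx.le, hxn⟩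
  have hmem2 : x + ε • v ∈ A.1 := by
    rw [hA]; exact ⟨hε1, by rw [inner_add_right, inner_smul_right, hnv, hxn]; ring⟩
  by_cases h : x = p
  · refine ⟨x + ε • v, hmem2, ?_⟩
    rw [← h]
    intro h'
    have h3 : ε • v = 0 := by simpa using h'
    rcases smul_eq_zero.mp h3 with h4 | h4
    · exact hε.ne' h4
    · exact hv h4
  · exact ⟨x, hmem1, h⟩

/-- Incidence of the tangency point with discs in terms of the meeting relation. -/
theorem incid [FiniteDimensional ℝ V] (h2 : 2 ≤ finrank ℝ V) {A B : Dsc V}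
    (h : ∃ C, Bet A B C ∧ meets C A) {p : V} (hpA : p ∈ A.1) (hpB : p ∈ B.1) (X : Dsc V) :
    p ∈ X.1 ↔ ∀ C, Bet A B C → meets C A → meets X C := by
  obtain ⟨q, hq, hqA, hqB, huniq⟩ := point_of_bet h2 h
  have hpq := huniq p hpA hpB
  subst hpq
  constructor
  · rintro hpX C hC ⟨x, hxC, hxA⟩
    obtain ⟨n, c, hnc, hB, hsA, hsC⟩ := hC.sep h2
    have hxc : inner ℝ n x = c := le_antisymm (hsC x hxC) (hsA x hxA)
    have hxB : x ∈ B.1 := by rw [hB]; exact ⟨mem_norm_le hxA, hxc⟩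
    rw [huniq x hxA hxB] at hxC
    exact ⟨p, hpX, hxC⟩
  · intro hall
    by_contra hpX
    obtain ⟨C0, hC0, -⟩ := h
    obtain ⟨n, c, hnc, hB, hsA, -⟩ := hC0.sep h2
    have hpn : inner ℝ n p = c := by rw [hB] at hqB; exact hqB.2
    obtain ⟨ε, hε, hball⟩ := Metric.isOpen_iff.mp (isClosed_dsc X).isOpen_compl p hpX
    obtain ⟨t, ht⟩ := exists_gt (4 * ‖n‖ / ε ^ 2)
    have ht0 : 0 < t := lt_of_le_of_lt (by positivity) ht
    have hsmall := small_t hnc hq hε ht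
    set C : Dsc V := ⟨D (n - t • p) (c - t), isDisc_D (valid_t t hnc hq hpn)⟩ with hCdef
    have hpC : p ∈ C.1 := by
      show p ∈ D (n - t • p) (c - t)
      rw [mem_t, hpn, real_inner_self_eq_norm_sq, hq]
      exact ⟨le_refl _, by ring⟩
    have hCs : ∀ x ∈ C.1, inner ℝ n x ≤ c := by
      intro x hx
      have hx' := mem_t.mp hx
      have := inner_le_one hq hx'.1
      nlinarith [hx'.2]
    have hCB : C ≠ B := by
      intro h'
      obtain ⟨x, hx, hxp⟩ := exists_other h2 B p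
      have hxC : x ∈ C.1 := by rw [h']; exact hx
      have hx' := mem_t.mp hxC
      rw [hB] at hx
      have h3 := hx'.2
      rw [hx.2, sub_self] at h3
      have h4 := inner_lt_one hq hx'.1 (Ne.symm hxp)
      nlinarith
    have hbet : Bet A B C := bet_of_sep h2 hC0.1 hCB hnc hB hsA hCs
    obtain ⟨y, hyX, hyC⟩ := hall C hbet ⟨p, hpC, hqA⟩
    exact hball (by rw [Metric.mem_ball, dist_eq_norm]; exact hsmall y hyC) hyX

theorem exists_tangent [FiniteDimensional ℝ V] (h2 : 2 ≤ finrank ℝ V) {p : V} (hp : ‖p‖ = 1) :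
    ∃ A B : Dsc V, (∃ C, Bet A B C ∧ meets C A) ∧ p ∈ A.1 ∧ p ∈ B.1 := by
  obtain ⟨v, hv, hpv⟩ := exists_orth h2 p
  have hvp : inner ℝ v p = 0 := by rw [real_inner_comm]; exact hpv
  have hnc : |(0:ℝ)| < ‖v‖ := by rw [abs_zero]; exact norm_pos_iff.mpr hv
  have hmem : ∀ t : ℝ, p ∈ D (v - t • p) (0 - t) := by
    intro t
    rw [mem_t, hvp, real_inner_self_eq_norm_sq, hp]
    exact ⟨le_refl _, by ring⟩
  have hne : ∀ t : ℝ, t ≠ 0 → D (v - t • p) (0 - t) ≠ D v 0 := by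
    intro t ht h
    obtain ⟨x, hx, hxp⟩ := exists_other h2 ⟨D v 0, isDisc_D hnc⟩ p
    have hx1 : x ∈ D (v - t • p) (0 - t) := by rw [h]; exact hx
    have h3 := (mem_t.mp hx1).2
    rw [hx.2] at h3
    have h4 := inner_lt_one hp hx.1 (Ne.symm hxp)
    have h5 : t * (1 - inner ℝ p x) = 0 := by linarith
    rcases mul_eq_zero.mp h5 with h6 | h6
    · exact ht h6
    · linarith
  refine ⟨⟨_, isDisc_D (valid_t (-1) hnc hp hvp)⟩, ⟨D v 0, isDisc_D hnc⟩,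
    ⟨⟨_, isDisc_D (valid_t 1 hnc hp hvp)⟩, ?_, ?_⟩, ?_, ?_⟩
  · refine bet_of_sep h2 ?_ ?_ hnc rfl ?_ ?_
    · intro h; exact hne (-1) (by norm_num) (congrArg Subtype.val h)
    · intro h; exact hne 1 (by norm_num) (congrArg Subtype.val h)
    · intro x hx
      have h3 := mem_t.mp hx
      have := inner_le_one hp h3.1
      linarith [h3.2]
    · intro x hx
      have h3 := mem_t.mp hx
      have := inner_le_one hp h3.1
      linarith [h3.2]
  · exact ⟨p, hmem 1, hmem (-1)⟩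
  · exact hmem (-1)
  · have := hmem 0
    simpa using this

/-- Points of the sphere are separated by discs. -/
theorem eq_of_discs [FiniteDimensional ℝ V] (h2 : 2 ≤ finrank ℝ V) {p q : V} (hp : ‖p‖ = 1)
    (h : ∀ X : Dsc V, p ∈ X.1 → q ∈ X.1) : p = q := by
  obtain ⟨A, B, hC, hpA, hpB⟩ := exists_tangent h2 hp
  obtain ⟨p', -, -, -, hu⟩ := point_of_bet h2 hC
  rw [hu p hpA hpB, hu q (h A hpA) (h B hpB)]

/-- A permutation of the discs which preserves the meeting relation is induced by a map of the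
sphere. -/
theorem exists_pt [FiniteDimensional ℝ V] (h2 : 2 ≤ finrank ℝ V) (φ : Dsc V ≃ Dsc V)
    (hφ : ∀ A B, meets (φ A) (φ B) ↔ meets A B) {p : V} (hp : ‖p‖ = 1) :
    ∃ q : V, ‖q‖ = 1 ∧ ∀ X : Dsc V, p ∈ X.1 ↔ q ∈ (φ X).1 := by
  have hbet : ∀ A B C, Bet (φ A) (φ B) (φ C) ↔ Bet A B C := by
    intro A B C
    unfold Bet
    rw [φ.injective.ne_iff, φ.injective.ne_iff]
    constructor
    · rintro ⟨h1, h3, h4⟩
      exact ⟨h1, h3, fun X hXA hXC => (hφ X B).mp (h4 (φ X) ((hφ X A).mpr hXA) ((hφ X C).mpr hXC))⟩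
    · rintro ⟨h1, h3, h4⟩
      refine ⟨h1, h3, fun X hXA hXC => ?_⟩
      obtain ⟨Y, rfl⟩ := φ.surjective X
      exact (hφ Y B).mpr (h4 Y ((hφ Y A).mp hXA) ((hφ Y C).mp hXC))
  obtain ⟨A, B, hC, hpA, hpB⟩ := exists_tangent h2 hp
  have hC' : ∃ C, Bet (φ A) (φ B) C ∧ meets C (φ A) := by
    obtain ⟨C, h1, h3⟩ := hC
    exact ⟨φ C, (hbet _ _ _).mpr h1, (hφ _ _).mpr h3⟩
  obtain ⟨q, hq, hqA, hqB, -⟩ := point_of_bet h2 hC'
  refine ⟨q, hq, fun X => ?_⟩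
  rw [incid h2 hC hpA hpB X, incid h2 hC' hqA hqB (φ X)]
  constructor
  · intro h C h1 h3
    obtain ⟨C', rfl⟩ := φ.surjective C
    exact (hφ _ _).mpr (h C' ((hbet _ _ _).mp h1) ((hφ _ _).mp h3))
  · intro h C h1 h3
    exact (hφ _ _).mp (h (φ C) ((hbet _ _ _).mpr h1) ((hφ _ _).mpr h3))

/-- A disc is determined by its boundary points. -/
theorem eq_of_sphere [FiniteDimensional ℝ V] (h2 : 2 ≤ finrank ℝ V) {A B : Dsc V}
    (h : ∀ p : V, ‖p‖ = 1 → p ∈ A.1 → p ∈ B.1) : A = B := by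
  apply Subtype.ext
  apply subset_eq A.2 B.2
  obtain ⟨n, c, hnc, hA⟩ := A.2
  obtain ⟨m, e, hme, hB⟩ := B.2
  intro x hx
  rw [hB]
  refine ⟨mem_norm_le hx, ?_⟩
  by_contra hne
  rw [hA] at hx
  rcases lt_or_gt_of_ne hne with h1 | h1
  · obtain ⟨b, hb, hb1, hb2⟩ := exists_sphere_pos h2 (m := -m) (e := -e) hx
      (by rw [inner_neg_left]; linarith)
    have h3 := h b hb1 (by rw [hA]; exact hb)
    rw [hB] at h3
    rw [inner_neg_left, h3.2] at hb2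
    linarith
  · obtain ⟨b, hb, hb1, hb2⟩ := exists_sphere_pos h2 hx h1
    have h3 := h b hb1 (by rw [hA]; exact hb)
    rw [hB] at h3
    rw [h3.2] at hb2
    linarith

end Pool.Agent.Q107.SphG
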