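import Pool.Agent.Q107.SphG.Ste
import Pool.Agent.Q107.SphG.Pts

/-! Linear representation of the permutations of the discs which preserve the meeting relation,
and a bound for families of pairs. -/

namespace Pool.Agent.Q107.SphG

open Metric Module

variable {V : Type*} [NormedAddCommGroup V] [InnerProductSpace ℝ V]

theorem sphere_norm (p : sphere (0 : V) 1) : ‖(p : V)‖ = 1 := by simp

theorem Rep.comp {F G : sphere (0 : V) 1 → sphere (0 : V) 1} {L M : V × ℝ →ₗ[ℝ] V × ℝ}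
    (hF : Rep F L) (hG : Rep G M) : Rep (F ∘ G) (L ∘ₗ M) := by
  intro p
  obtain ⟨μ, hμ, h1⟩ := hG p
  obtain ⟨ν, hν, h3⟩ := hF (G p)
  refine ⟨μ * ν, by positivity, ?_⟩
  rw [LinearMap.comp_apply, h1, map_smul, h3, smul_smul]
  rfl

/-- a rotation of the sphere -/
noncomputable def rot (O : V ≃ₗᵢ[ℝ] V) : sphere (0 : V) 1 ≃ sphere (0 : V) 1 where
  toFun p := ⟨O p, by simp⟩
  invFun p := ⟨O.symm p, by simp⟩
  left_inv p := by apply Subtype.ext; simp
  right_inv p := by apply Subtype.ext; simp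

theorem exists_rep [FiniteDimensional ℝ V] (h3 : 3 ≤ finrank ℝ V)
    (F : sphere (0 : V) 1 ≃ sphere (0 : V) 1) (hF : DP F) (hF' : DP F.symm) :
    ∃ L : V × ℝ →ₗ[ℝ] V × ℝ, Rep F L := by
  obtain ⟨v, hv, -⟩ := exists_orth (by omega : 2 ≤ finrank ℝ V) (0 : V)
  have hv' : 0 < ‖v‖ := norm_pos_iff.mpr hv
  set N : V := (1 / ‖v‖) • v with hNdef
  have hN : ‖N‖ = 1 := by
    rw [hNdef, norm_smul, Real.norm_of_nonneg (by positivity)]; field_simp
  set q : sphere (0 : V) 1 := F ⟨N, by simpa using hN⟩ with hq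
  obtain ⟨O, hO⟩ : ∃ O : V ≃ₗᵢ[ℝ] V, O (q : V) = N :=
    ⟨_, Submodule.reflection_sub (v := (q : V)) (w := N) (by rw [sphere_norm, hN])⟩
  have h1 : DP (F.trans (rot O)) := by
    intro n c hn
    obtain ⟨n', c', hn', h⟩ := hF n c hn
    refine ⟨O n', c', by rw [O.norm_map]; exact hn', fun p => ?_⟩
    rw [h p]
    show _ ↔ inner ℝ (O n') (O (F p : V)) = c'
    rw [O.inner_map_map]
  have h4 : DP (F.trans (rot O)).symm := by
    intro n c hn
    obtain ⟨n', c', hn', h⟩ := hF' (O.symm n) c (by rw [O.symm.norm_map]; exact hn)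
    refine ⟨n', c', hn', fun p => ?_⟩
    have h5 := h ((rot O).symm p)
    rw [show (((rot O).symm p : sphere (0:V) 1) : V) = O.symm (p : V) from rfl,
      O.symm.inner_map_map] at h5
    exact h5
  obtain ⟨L, hL⟩ := exists_rep_fix hN (F.trans (rot O)) (by
    show O (F ⟨N, _⟩ : V) = N
    exact hO) h3 h1 h4
  refine ⟨(O.symm.toLinearEquiv.toLinearMap.prodMap LinearMap.id) ∘ₗ L, ?_⟩
  intro p
  obtain ⟨μ, hμ, h⟩ := hL p
  refine ⟨μ, hμ, ?_⟩
  rw [LinearMap.comp_apply, h, map_smul]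
  congr 1
  refine Prod.ext ?_ rfl
  show O.symm (O (F p : V)) = F p
  simp

theorem rep_id [FiniteDimensional ℝ V] (h2 : 2 ≤ finrank ℝ V) {L : V × ℝ →ₗ[ℝ] V × ℝ}
    (hL : Rep id L) : ∃ l : ℝ, 0 < l ∧ L = l • LinearMap.id := by
  have key : ∀ p : sphere (0 : V) 1, ∃ μ : ℝ, 0 < μ ∧ L ((p : V), 1) = μ • ((p : V), (1 : ℝ)) ∧
      L (0, 1) = (0, μ) := by
    intro p
    obtain ⟨v, hv, hpv⟩ := exists_orth h2 (p : V)
    have hv' : 0 < ‖v‖ := norm_pos_iff.mpr hv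
    have hq1 : ‖(1 / ‖v‖) • v‖ = 1 := by
      rw [norm_smul, Real.norm_of_nonneg (by positivity)]; field_simp
    set q : sphere (0 : V) 1 := ⟨(1 / ‖v‖) • v, by rw [mem_sphere_zero_iff_norm]; exact hq1⟩ with hq
    have hpq : inner ℝ (p : V) (q : V) = 0 := by
      show inner ℝ (p : V) ((1 / ‖v‖) • v) = 0
      rw [inner_smul_right, hpv, mul_zero]
    have hsum : ∀ r : sphere (0 : V) 1, ∃ μ ν : ℝ, 0 < μ ∧ L ((r : V), 1) = μ • ((r : V), (1 : ℝ)) ∧
        L ((0 : V), 2) = ((μ - ν) • (r : V), μ + ν) := by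
      intro r
      obtain ⟨μ, hμ, h1⟩ := hL r
      obtain ⟨ν, hν, h3⟩ := hL (-r)
      refine ⟨μ, ν, hμ, h1, ?_⟩
      have e : ((0 : V), (2:ℝ)) = ((r : V), (1:ℝ)) + (((-r : sphere (0:V) 1) : V), (1:ℝ)) := by
        refine Prod.ext ?_ ?_
        · simp
        · show (2:ℝ) = 1 + 1; norm_num
      rw [e, map_add, h1, h3]
      refine Prod.ext ?_ ?_
      · simp [sub_eq_add_neg]; module
      · simp
    obtain ⟨μ, ν, hμ, h1, h3⟩ := hsum p
    obtain ⟨μ', ν', hμ', h1', h3'⟩ := hsum q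
    have h4 : (μ - ν) • (p : V) = (μ' - ν') • (q : V) := by
      have := h3.symm.trans h3'
      exact congrArg Prod.fst this
    have h5 : μ - ν = 0 := by
      have h6 := congrArg (fun x => inner ℝ (p : V) x) h4
      simp only [inner_smul_right, hpq, mul_zero] at h6
      rw [real_inner_self_eq_norm_sq, sphere_norm] at h6
      linarith
    refine ⟨μ, hμ, h1, ?_⟩
    have h7 : ((0 : V), (1:ℝ)) = (1/2:ℝ) • ((0 : V), (2:ℝ)) := by
      refine Prod.ext ?_ ?_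
      · simp
      · show (1:ℝ) = (1/2) * 2; norm_num
    rw [h7, map_smul, h3, h5, zero_smul]
    refine Prod.ext ?_ ?_
    · simp
    · show (1/2:ℝ) * (μ + ν) = μ
      linarith
  obtain ⟨v, hv, -⟩ := exists_orth h2 (0 : V)
  have hunit : ∀ x : V, x ≠ 0 → ‖(1 / ‖x‖) • x‖ = 1 := by
    intro x hx
    have : 0 < ‖x‖ := norm_pos_iff.mpr hx
    rw [norm_smul, Real.norm_of_nonneg (by positivity)]; field_simp
  obtain ⟨l, hl, -, hl0⟩ := key ⟨(1 / ‖v‖) • v, by rw [mem_sphere_zero_iff_norm]; exact hunit v hv⟩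
  refine ⟨l, hl, ?_⟩
  have hx : ∀ x : V, L (x, 0) = l • (x, (0:ℝ)) := by
    intro x
    by_cases hx0 : x = 0
    · subst hx0
      have : ((0:V), (0:ℝ)) = 0 := rfl
      rw [this, map_zero, smul_zero]
    · have hxn : 0 < ‖x‖ := norm_pos_iff.mpr hx0
      obtain ⟨μ, hμ, h1, h3⟩ := key ⟨(1 / ‖x‖) • x, by
        rw [mem_sphere_zero_iff_norm]; exact hunit x hx0⟩
      have hμl : μ = l := by
        have := h3.symm.trans hl0
        exact congrArg Prod.snd this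
      subst hμl
      have e : (x, (0:ℝ)) = ‖x‖ • (((1 / ‖x‖) • x, (1:ℝ)) - ((0:V), (1:ℝ))) := by
        refine Prod.ext ?_ ?_
        · show x = ‖x‖ • ((1 / ‖x‖) • x - 0)
          rw [sub_zero, smul_smul, mul_one_div_cancel hxn.ne', one_smul]
        · show (0:ℝ) = ‖x‖ * (1 - 1)
          ring
      rw [e, map_smul, map_sub]
      rw [show L ((1 / ‖x‖) • x, 1) = μ • ((1 / ‖x‖) • x, (1:ℝ)) from h1, h3]
      refine Prod.ext ?_ ?_
      · simp only [Prod.fst_sub, Prod.smul_fst, sub_zero]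
        rw [smul_comm]
      · simp
  apply LinearMap.ext
  rintro ⟨x, t⟩
  have e : (x, t) = (x, (0:ℝ)) + t • ((0:V), (1:ℝ)) := by
    refine Prod.ext ?_ ?_
    · simp
    · simp
  rw [e, map_add, map_smul, hx, hl0]
  refine Prod.ext ?_ ?_
  · simp
  · simp [mul_comm]

theorem comm_of_comm [FiniteDimensional ℝ V] (h2 : 2 ≤ finrank ℝ V)
    {F G K : sphere (0 : V) 1 → sphere (0 : V) 1} {L M R : V × ℝ →ₗ[ℝ] V × ℝ} (hF : Rep F L)
    (hG : Rep G M) (hK : Rep K R) (hc : F ∘ G = G ∘ F) (h1 : K ∘ (F ∘ G) = id)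
    (h1' : (F ∘ G) ∘ K = id) : L ∘ₗ M = M ∘ₗ L := by
  have e1 : Rep id (R ∘ₗ (L ∘ₗ M)) := by rw [← h1]; exact hK.comp (hF.comp hG)
  have e2 : Rep id (R ∘ₗ (M ∘ₗ L)) := by rw [← h1, hc]; exact hK.comp (hG.comp hF)
  have e3 : Rep id ((L ∘ₗ M) ∘ₗ R) := by rw [← h1']; exact (hF.comp hG).comp hK
  obtain ⟨a, ha, ha'⟩ := rep_id h2 e1
  obtain ⟨b, hb, hb'⟩ := rep_id h2 e2
  obtain ⟨c, hc0, hc'⟩ := rep_id h2 e3
  have hn : finrank ℝ (V × ℝ) ≠ 0 := by
    rw [finrank_prod]; omega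
  have hdet : a ^ finrank ℝ (V × ℝ) = b ^ finrank ℝ (V × ℝ) := by
    have d1 := congrArg LinearMap.det ha'
    have d2 := congrArg LinearMap.det hb'
    rw [LinearMap.det_comp, LinearMap.det_comp, LinearMap.det_smul, LinearMap.det_id,
      mul_one] at d1 d2
    rw [← d1, ← d2]; ring
  have hab : a = b := (pow_left_inj₀ ha.le hb.le hn).mp hdet
  have hinj : Function.Injective R := by
    intro x y hxy
    have h4 : ((L ∘ₗ M) ∘ₗ R) x = ((L ∘ₗ M) ∘ₗ R) y := by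
      rw [LinearMap.comp_apply, LinearMap.comp_apply, hxy]
      rfl
    rw [hc'] at h4
    have h5 : c • x = c • y := h4
    have h6 := congrArg (fun z => c⁻¹ • z) h5
    simpa [smul_smul, inv_mul_cancel₀ hc0.ne'] using h6
  apply LinearMap.ext
  intro x
  apply hinj
  have h4 : (R ∘ₗ (L ∘ₗ M)) x = (R ∘ₗ (M ∘ₗ L)) x := by rw [ha', hb', hab]
  exact h4

theorem comm_of_lin {F G : sphere (0 : V) 1 → sphere (0 : V) 1} {L M : V × ℝ →ₗ[ℝ] V × ℝ}
    (hF : Rep F L) (hG : Rep G M) (h : L ∘ₗ M = M ∘ₗ L) : F ∘ G = G ∘ F := by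
  funext p
  obtain ⟨μ, hμ, h1⟩ := (hF.comp hG) p
  obtain ⟨ν, hν, h3⟩ := (hG.comp hF) p
  rw [h, h3] at h1
  have h4 : ν = μ := by
    have := congrArg Prod.snd h1
    simpa using this
  subst h4
  have h5 : ν • (((G ∘ F) p : sphere (0:V) 1) : V) = ν • (((F ∘ G) p : sphere (0:V) 1) : V) := by
    have := congrArg Prod.fst h1
    simpa using this
  apply Subtype.ext
  have h6 := congrArg (fun z => ν⁻¹ • z) h5
  simpa [smul_smul, inv_mul_cancel₀ hν.ne'] using h6.symm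

/-- In a group whose elements have linear maps which detect commutation, families of pairs
`a i, b i` with `a i`, `b i` not commuting and `a i`, `b j` commuting for `i ≠ j` are bounded. -/
theorem lin_bound {G : Type*} [Group G] {U : Type*} [AddCommGroup U] [Module ℝ U]
    [FiniteDimensional ℝ U] (ρ : G → Module.End ℝ U)
    (h : ∀ x y : G, x * y = y * x ↔ ρ x * ρ y = ρ y * ρ x) {k : ℕ} (a b : Fin k → G)
    (hne : ∀ i, a i * b i ≠ b i * a i) (hc : ∀ i j, i ≠ j → a i * b j = b j * a i) :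
    k ≤ finrank ℝ (Module.End ℝ U) := by
  have hli : LinearIndependent ℝ (fun i => ρ (a i)) := by
    rw [Fintype.linearIndependent_iff]
    intro c hc0 j
    have h1 : (∑ i, c i • ρ (a i)) * ρ (b j) - ρ (b j) * (∑ i, c i • ρ (a i)) = 0 := by
      rw [hc0]; simp
    have h3 : (∑ i, c i • ρ (a i)) * ρ (b j) - ρ (b j) * (∑ i, c i • ρ (a i)) =
        ∑ i, c i • (ρ (a i) * ρ (b j) - ρ (b j) * ρ (a i)) := by
      rw [Finset.sum_mul, Finset.mul_sum, ← Finset.sum_sub_distrib]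
      refine Finset.sum_congr rfl fun i _ => ?_
      rw [smul_mul_assoc, mul_smul_comm, smul_sub]
    rw [h3, Finset.sum_eq_single j] at h1
    · rcases smul_eq_zero.mp h1 with h4 | h4
      · exact h4
      · exact absurd ((h _ _).mpr (sub_eq_zero.mp h4)) (hne j)
    · intro i _ hij
      rw [(h _ _).mp (hc i j hij), sub_self, smul_zero]
    · intro hj; exact absurd (Finset.mem_univ j) hj
  have := hli.fintype_card_le_finrank
  simpa using this

theorem exists_F [FiniteDimensional ℝ V] (h2 : 2 ≤ finrank ℝ V) (φ : Dsc V ≃ Dsc V)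
    (hφ : ∀ A B, meets (φ A) (φ B) ↔ meets A B) :
    ∃ F : sphere (0 : V) 1 ≃ sphere (0 : V) 1, ∀ (p : sphere (0 : V) 1) (X : Dsc V),
      (p : V) ∈ X.1 ↔ (F p : V) ∈ (φ X).1 := by
  have hφ' : ∀ A B, meets (φ.symm A) (φ.symm B) ↔ meets A B := by
    intro A B
    rw [← hφ]; simp
  have h1 : ∀ p : sphere (0 : V) 1, ∃ q : sphere (0 : V) 1, ∀ X : Dsc V,
      (p : V) ∈ X.1 ↔ (q : V) ∈ (φ X).1 := by
    intro p
    obtain ⟨q, hq, h⟩ := exists_pt h2 φ hφ (sphere_norm p)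
    exact ⟨⟨q, by simpa using hq⟩, h⟩
  have h3 : ∀ p : sphere (0 : V) 1, ∃ q : sphere (0 : V) 1, ∀ X : Dsc V,
      (p : V) ∈ X.1 ↔ (q : V) ∈ (φ.symm X).1 := by
    intro p
    obtain ⟨q, hq, h⟩ := exists_pt h2 φ.symm hφ' (sphere_norm p)
    exact ⟨⟨q, by simpa using hq⟩, h⟩
  choose f hf using h1
  choose g hg using h3
  refine ⟨⟨f, g, ?_, ?_⟩, hf⟩
  · intro p
    apply Subtype.ext
    symm
    apply eq_of_discs h2 (sphere_norm p)
    intro X hX
    have := (hg (f p) (φ X)).mp ((hf p X).mp hX)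
    simpa using this
  · intro p
    apply Subtype.ext
    symm
    apply eq_of_discs h2 (sphere_norm p)
    intro X hX
    have := (hf (g p) (φ.symm X)).mp ((hg p X).mp hX)
    simpa using this

theorem dp_of_ind [FiniteDimensional ℝ V] (φ : Dsc V ≃ Dsc V)
    {F : sphere (0 : V) 1 ≃ sphere (0 : V) 1} (hF : ∀ (p : sphere (0 : V) 1) (X : Dsc V),
      (p : V) ∈ X.1 ↔ (F p : V) ∈ (φ X).1) : DP F := by
  intro n c hn
  obtain ⟨n', c', hn', h⟩ := (φ ⟨D n c, isDisc_D hn⟩).2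
  refine ⟨n', c', hn', fun p => ?_⟩
  have h1 := hF p ⟨D n c, isDisc_D hn⟩
  rw [h] at h1
  constructor
  · intro h3
    exact (h1.mp ⟨(sphere_norm p).le, h3⟩).2
  · intro h3
    exact (h1.mpr ⟨(sphere_norm _).le, h3⟩).2

theorem ind_symm (φ : Dsc V ≃ Dsc V)
    {F : sphere (0 : V) 1 ≃ sphere (0 : V) 1} (hF : ∀ (p : sphere (0 : V) 1) (X : Dsc V),
      (p : V) ∈ X.1 ↔ (F p : V) ∈ (φ X).1) (p : sphere (0 : V) 1) (X : Dsc V) :
    (p : V) ∈ X.1 ↔ (F.symm p : V) ∈ (φ.symm X).1 := by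
  rw [hF (F.symm p) (φ.symm X)]; simp

end Pool.Agent.Q107.SphG
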