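import Pool.Agent.Q107.SphG.Lin
import Pool.Agent.Q107.SphG.Bump

/-! Linearity of the automorphism group of the disc graph. -/

namespace Pool.Agent.Q107.SphG

open Metric Module

variable {V : Type*} [NormedAddCommGroup V] [InnerProductSpace ℝ V]

theorem exists_lin [FiniteDimensional ℝ V] (h3 : 3 ≤ finrank ℝ V) {G : Type*} [Group G]
    (t : G →* Equiv.Perm (Dsc V)) (ht : Function.Injective t)
    (hm : ∀ (x : G) (A B : Dsc V), meets (t x A) (t x B) ↔ meets A B) :
    ∃ ρ : G → Module.End ℝ (V × ℝ), ∀ x y : G, x * y = y * x ↔ ρ x * ρ y = ρ y * ρ x := by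
  have h2 : 2 ≤ finrank ℝ V := by omega
  have hex : ∀ x : G, ∃ (F : sphere (0 : V) 1 ≃ sphere (0 : V) 1) (L R : V × ℝ →ₗ[ℝ] V × ℝ),
      (∀ (p : sphere (0 : V) 1) (X : Dsc V), (p : V) ∈ X.1 ↔ (F p : V) ∈ (t x X).1) ∧
      Rep F L ∧ Rep F.symm R := by
    intro x
    obtain ⟨F, hF⟩ := exists_F h2 (t x) (hm x)
    have h1 := dp_of_ind (t x) hF
    have h4 := dp_of_ind (t x).symm (ind_symm (t x) hF)
    obtain ⟨L, hL⟩ := exists_rep h3 F h1 h4
    obtain ⟨R, hR⟩ := exists_rep h3 F.symm h4 (by simpa using h1)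
    exact ⟨F, L, R, hF, hL, hR⟩
  choose F L R hF hL hR using hex
  refine ⟨L, fun x y => ⟨fun h => ?_, fun h => ?_⟩⟩
  · have hc : (F x : sphere (0:V) 1 → sphere (0:V) 1) ∘ F y = F y ∘ F x := by
      funext p
      apply Subtype.ext
      apply eq_of_discs h2 (sphere_norm _)
      intro X hX
      obtain ⟨Z, rfl⟩ := (t (x * y)).surjective X
      have e1 : (F x (F y p) : V) ∈ (t (x * y) Z).1 ↔ (p : V) ∈ Z.1 := by
        rw [map_mul, Equiv.Perm.mul_apply, ← hF x, ← hF y]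
      have e2 : (F y (F x p) : V) ∈ (t (x * y) Z).1 ↔ (p : V) ∈ Z.1 := by
        rw [h, map_mul, Equiv.Perm.mul_apply, ← hF y, ← hF x]
      exact e2.mpr (e1.mp hX)
    refine comm_of_comm h2 (hL x) (hL y) ((hR y).comp (hR x)) hc ?_ ?_
    · funext p; simp
    · funext p; simp
  · have hc := comm_of_lin (hL x) (hL y) h
    apply ht
    apply Equiv.ext
    intro Z
    apply eq_of_sphere h2
    intro p hp hpZ
    obtain ⟨q, hq⟩ := ((F y).trans (F x)).surjective ⟨p, by simpa using hp⟩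
    have hq' : (F x (F y q) : V) = p := by rw [show F x (F y q) = _ from hq]
    have hq'' : (F y (F x q) : V) = p := by
      have := congrFun hc q
      simp only [Function.comp_apply] at this
      rw [← this]; exact hq'
    have e1 : (F x (F y q) : V) ∈ (t (x * y) Z).1 ↔ (q : V) ∈ Z.1 := by
      rw [map_mul, Equiv.Perm.mul_apply, ← hF x, ← hF y]
    have e2 : (F y (F x q) : V) ∈ (t (y * x) Z).1 ↔ (q : V) ∈ Z.1 := by
      rw [map_mul, Equiv.Perm.mul_apply, ← hF y, ← hF x]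
    rw [hq'] at e1
    rw [hq''] at e2
    exact e2.mpr (e1.mp hpZ)

/-- An automorphism is induced by a homeomorphism of the sphere which is the action of a linear
map on the rays of the light cone. -/
theorem exists_moebius [FiniteDimensional ℝ V] (h3 : 3 ≤ finrank ℝ V) (φ : Dsc V ≃ Dsc V)
    (hφ : ∀ A B, meets (φ A) (φ B) ↔ meets A B) :
    ∃ (F : sphere (0 : V) 1 ≃ₜ sphere (0 : V) 1) (L : V × ℝ →ₗ[ℝ] V × ℝ),
      (∀ p : sphere (0 : V) 1, ∃ μ : ℝ, 0 < μ ∧ L ((p : V), 1) = μ • ((F p : V), (1 : ℝ))) ∧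
      ∀ (p : sphere (0 : V) 1) (X : Dsc V), (p : V) ∈ X.1 ↔ (F p : V) ∈ (φ X).1 := by
  have h2 : 2 ≤ finrank ℝ V := by omega
  obtain ⟨F, hF⟩ := exists_F h2 φ hφ
  have h1 := dp_of_ind φ hF
  have h4 := dp_of_ind φ.symm (ind_symm φ hF)
  obtain ⟨L, hL⟩ := exists_rep h3 F h1 h4
  obtain ⟨R, hR⟩ := exists_rep h3 F.symm h4 (by simpa using h1)
  have key : ∀ (F : sphere (0 : V) 1 → sphere (0 : V) 1) (L : V × ℝ →ₗ[ℝ] V × ℝ), Rep F L →
      Continuous F := by
    intro F L hL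
    have hLc : Continuous L := LinearMap.continuous_of_finiteDimensional L
    have e : ∀ p : sphere (0 : V) 1, 0 < (L ((p : V), 1)).2 ∧
        (F p : V) = (L ((p : V), 1)).2⁻¹ • (L ((p : V), 1)).1 := by
      intro p
      obtain ⟨μ, hμ, h⟩ := hL p
      rw [h]
      constructor
      · simpa using hμ
      · simp [smul_smul, inv_mul_cancel₀ hμ.ne']
    rw [continuous_induced_rng]
    have e' : (Subtype.val ∘ F) = fun p : sphere (0 : V) 1 =>
        (L ((p : V), 1)).2⁻¹ • (L ((p : V), 1)).1 := by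
      funext p; exact (e p).2
    rw [e']
    have hc : Continuous fun p : sphere (0 : V) 1 => L ((p : V), (1:ℝ)) :=
      hLc.comp (by fun_prop)
    exact ((continuous_snd.comp hc).inv₀ fun p => (e p).1.ne').smul (continuous_fst.comp hc)
  exact ⟨⟨F, key _ _ hL, key _ _ hR⟩, L, hL, hF⟩

end Pool.Agent.Q107.SphG
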