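import Pool.Agent.Q107.SphG.Disc

/-! A bijection of Euclidean space which maps hyperplanes to hyperplanes and spheres to spheres is
a similarity. -/

namespace Pool.Agent.Q107.SphG

open Metric Module

variable {E : Type*} [NormedAddCommGroup E] [InnerProductSpace ℝ E]

def IsHyp (H : Set E) : Prop := ∃ (w : E) (a : ℝ), w ≠ 0 ∧ H = {x | inner ℝ w x = a}

def IsSph (S : Set E) : Prop := ∃ (u : E) (r : ℝ), 0 < r ∧ S = sphere u r

/-- `g` maps hyperplanes to hyperplanes and spheres to spheres. -/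
def Good (g : E ≃ E) : Prop := (∀ H, IsHyp H → IsHyp (g '' H)) ∧ (∀ S, IsSph S → IsSph (g '' S))

theorem mem_closedBall_iff [FiniteDimensional ℝ E] (h2 : 2 ≤ finrank ℝ E) {u p : E} {r : ℝ}
    (hr : 0 < r) : p ∈ closedBall u r ↔ ∀ H, IsHyp H → p ∈ H → (H ∩ sphere u r).Nonempty := by
  constructor
  · rintro hp H ⟨w, a, hw, rfl⟩ hpH
    obtain ⟨v, hv, hwv⟩ := exists_orth h2 w
    have h1 : ‖(1 / r) • (p - u)‖ ≤ 1 := by
      rw [norm_smul, Real.norm_of_nonneg (by positivity)]
      rw [mem_closedBall, dist_eq_norm] at hp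
      rw [div_mul_eq_mul_div, one_mul, div_le_one hr]
      exact hp
    obtain ⟨t, -, ht⟩ := chord h1 hv
    refine ⟨p + (r * t) • v, ?_, ?_⟩
    · show inner ℝ w _ = a
      rw [inner_add_right, inner_smul_right, hwv, mul_zero, add_zero]
      exact hpH
    · rw [mem_sphere, dist_eq_norm]
      have h3 : p + (r * t) • v - u = r • ((1 / r) • (p - u) + t • v) := by
        rw [smul_add, smul_smul, smul_smul, mul_one_div_cancel hr.ne', one_smul]; abel
      rw [h3, norm_smul, ht, Real.norm_of_nonneg hr.le, mul_one]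
  · intro h
    by_contra hp
    rw [mem_closedBall, dist_eq_norm, not_le] at hp
    have hpu : p - u ≠ 0 := by
      intro h0; rw [h0, norm_zero] at hp; linarith
    obtain ⟨x, hxH, hxS⟩ := h {x | inner ℝ (p - u) x = inner ℝ (p - u) p} ⟨_, _, hpu, rfl⟩ rfl
    rw [mem_sphere, dist_eq_norm] at hxS
    have h1 : inner ℝ (p - u) (x - u) = ‖p - u‖ ^ 2 := by
      rw [inner_sub_right, show inner ℝ (p - u) x = inner ℝ (p - u) p from hxH, ← inner_sub_right,
        real_inner_self_eq_norm_sq]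
    have h3 := real_inner_le_norm (p - u) (x - u)
    rw [h1, hxS] at h3
    have h4 := norm_nonneg (p - u)
    nlinarith

theorem Good.image_closedBall [FiniteDimensional ℝ E] (h2 : 2 ≤ finrank ℝ E) {g : E ≃ E} (hg : Good g)
    (hg' : Good g.symm) {u : E} {r : ℝ} (hr : 0 < r) :
    ∃ (u' : E) (r' : ℝ), 0 < r' ∧ g '' closedBall u r = closedBall u' r' ∧
      g '' sphere u r = sphere u' r' := by
  obtain ⟨u', r', hr', hS⟩ := hg.2 (sphere u r) ⟨u, r, hr, rfl⟩
  refine ⟨u', r', hr', ?_, hS⟩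
  ext y
  rw [mem_closedBall_iff h2 hr', Equiv.image_eq_preimage_symm, Set.mem_preimage,
    mem_closedBall_iff h2 hr]
  constructor
  · intro h H hH hyH
    obtain ⟨x, hx, hxS⟩ := h (g.symm '' H) (hg'.1 H hH) ⟨y, hyH, rfl⟩
    obtain ⟨z, hz, rfl⟩ := hx
    refine ⟨z, hz, ?_⟩
    rw [← hS]
    exact ⟨g.symm z, hxS, by simp⟩
  · intro h H hH hyH
    obtain ⟨x, hx, hxS⟩ := h (g '' H) (hg.1 H hH) ⟨_, hyH, by simp⟩
    obtain ⟨z, hz, rfl⟩ := hx
    refine ⟨z, hz, ?_⟩
    rw [← hS] at hxS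
    obtain ⟨z', hz', hzz⟩ := hxS
    rw [← g.injective hzz]
    exact hz'

theorem Good.image_ball [FiniteDimensional ℝ E] (h2 : 2 ≤ finrank ℝ E) {g : E ≃ E} (hg : Good g)
    (hg' : Good g.symm) {u : E} {r : ℝ} (hr : 0 < r) :
    ∃ (u' : E) (r' : ℝ), g '' ball u r = ball u' r' := by
  obtain ⟨u', r', hr', h1, h3⟩ := Good.image_closedBall h2 hg hg' hr
  refine ⟨u', r', ?_⟩
  have e1 : Metric.ball u r = Metric.closedBall u r \ Metric.sphere u r := by
    ext x; simp only [mem_ball, Set.mem_sdiff, mem_closedBall, mem_sphere]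
    exact lt_iff_le_and_ne
  have e2 : Metric.ball u' r' = Metric.closedBall u' r' \ Metric.sphere u' r' := by
    ext x; simp only [mem_ball, Set.mem_sdiff, mem_closedBall, mem_sphere]
    exact lt_iff_le_and_ne
  rw [e1, e2, Set.image_sdiff g.injective, h1, h3]

theorem Good.continuous [FiniteDimensional ℝ E] (h2 : 2 ≤ finrank ℝ E) {g : E ≃ E} (hg : Good g)
    (hg' : Good g.symm) : Continuous g := by
  rw [Metric.continuous_iff']
  intro x ε hε
  obtain ⟨u', r', h⟩ := Good.image_ball h2 hg' (by simpa using hg) (u := g x) hε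
  rw [Equiv.image_eq_preimage_symm, Equiv.symm_symm] at h
  have h1 : x ∈ g ⁻¹' ball (g x) ε := mem_ball_self hε
  rw [h] at h1
  filter_upwards [isOpen_ball.mem_nhds h1] with y hy
  rw [← h] at hy
  exact hy

theorem mem_smul_iff [FiniteDimensional ℝ E] {b x : E} (hb : b ≠ 0) :
    (∃ t : ℝ, x = t • b) ↔ ∀ H, IsHyp H → (0:E) ∈ H → b ∈ H → x ∈ H := by
  constructor
  · rintro ⟨t, rfl⟩ H ⟨w, a, hw, rfl⟩ h0 hb'
    have h1 : inner ℝ w (0:E) = a := h0
    have h3 : inner ℝ w b = a := hb'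
    show inner ℝ w (t • b) = a
    rw [inner_zero_right] at h1
    rw [inner_smul_right, h3, ← h1, mul_zero]
  · intro h
    apply prop_of_orth hb
    intro v hv
    by_cases hv0 : v = 0
    · rw [hv0, inner_zero_right]
    · have := h {y | inner ℝ v y = 0} ⟨v, 0, hv0, rfl⟩ (inner_zero_right v)
        (by show inner ℝ v b = 0; rw [real_inner_comm]; exact hv)
      rw [real_inner_comm]
      exact this

theorem exists_two {b y z : E} (hy : ¬ ∃ t : ℝ, y = t • b) (hz : ¬ ∃ t : ℝ, z = t • b)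
    (hb : b ≠ 0) : ∃ w : E, inner ℝ w b = 0 ∧ inner ℝ w y ≠ 0 ∧ inner ℝ w z ≠ 0 := by
  have key : ∀ y : E, (¬ ∃ t : ℝ, y = t • b) → ∃ w : E, inner ℝ w b = 0 ∧ inner ℝ w y ≠ 0 := by
    intro y hy
    by_contra hcon
    push Not at hcon
    apply hy
    apply prop_of_orth hb
    intro v hv
    rw [real_inner_comm]
    exact hcon v (by rw [real_inner_comm]; exact hv)
  obtain ⟨w1, h1, h1'⟩ := key y hy
  obtain ⟨w2, h3, h3'⟩ := key z hz
  by_cases hA : inner ℝ w1 z = 0
  · by_cases hB : inner ℝ w2 y = 0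
    · refine ⟨w1 + w2, ?_, ?_, ?_⟩
      · rw [inner_add_left, h1, h3, add_zero]
      · rw [inner_add_left, hB, add_zero]; exact h1'
      · rw [inner_add_left, hA, zero_add]; exact h3'
    · exact ⟨w2, h3, hB, h3'⟩
  · exact ⟨w1, h1, h1', hA⟩

theorem mem_line_iff {a b x : E} (hb : b ≠ 0) (hab : ¬ ∃ t : ℝ, a = t • b) :
    (∃ t : ℝ, x = a + t • b) ↔ ∀ H, IsHyp H → a ∈ H → (∀ t : ℝ, t • b ∉ H) → x ∈ H := by
  constructor
  · rintro ⟨t, rfl⟩ H ⟨w, e, hw, rfl⟩ ha hH
    have h1 : inner ℝ w a = e := ha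
    have h3 : inner ℝ w b = 0 := by
      by_contra hne
      apply hH (e / inner ℝ w b)
      show inner ℝ w _ = e
      rw [inner_smul_right, div_mul_cancel₀ _ hne]
    show inner ℝ w _ = e
    rw [inner_add_right, inner_smul_right, h1, h3, mul_zero, add_zero]
  · intro h
    by_contra hx
    have hx' : ¬ ∃ t : ℝ, x - a = t • b := by
      rintro ⟨t, ht⟩
      exact hx ⟨t, by rw [← ht]; abel⟩
    obtain ⟨w, hwb, hwa, hwx⟩ := exists_two hab hx' hb
    have hw0 : w ≠ 0 := by rintro rfl; exact hwa (inner_zero_left _)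
    have := h {y | inner ℝ w y = inner ℝ w a} ⟨w, _, hw0, rfl⟩ rfl (by
      intro t ht
      have ht' : inner ℝ w (t • b) = inner ℝ w a := ht
      rw [inner_smul_right, hwb, mul_zero] at ht'
      exact hwa ht'.symm)
    have h5 : inner ℝ w x = inner ℝ w a := this
    rw [inner_sub_right, h5, sub_self] at hwx
    exact hwx rfl

section additive

variable [FiniteDimensional ℝ E] {g : E ≃ E}

theorem Good.image_smul (hg : Good g) (hg' : Good g.symm) (h0 : g 0 = 0) {b x : E} (hb : b ≠ 0) :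
    (∃ t : ℝ, g x = t • g b) ↔ ∃ t : ℝ, x = t • b := by
  have hgb : g b ≠ 0 := by rw [← h0]; exact g.injective.ne hb
  rw [mem_smul_iff hb, mem_smul_iff hgb]
  constructor
  · intro h H hH h0H hbH
    have := h (g '' H) (hg.1 H hH) ⟨0, h0H, h0⟩ ⟨b, hbH, rfl⟩
    rwa [g.injective.mem_set_image] at this
  · intro h H hH h0H hbH
    have := h (g.symm '' H) (hg'.1 H hH) ⟨0, h0H, by rw [Equiv.symm_apply_eq]; exact h0.symm⟩ ⟨g b, hbH, by simp⟩
    rw [Equiv.image_eq_preimage_symm, Equiv.symm_symm] at this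
    exact this

theorem Good.image_line (hg : Good g) (hg' : Good g.symm) (h0 : g 0 = 0) {a b x : E} (hb : b ≠ 0)
    (hab : ¬ ∃ t : ℝ, a = t • b) (hx : ∃ t : ℝ, x = a + t • b) :
    ∃ t : ℝ, g x = g a + t • g b := by
  have hgb : g b ≠ 0 := by rw [← h0]; exact g.injective.ne hb
  have hgab : ¬ ∃ t : ℝ, g a = t • g b := by rwa [hg.image_smul hg' h0 hb]
  rw [mem_line_iff hgb hgab]
  rw [mem_line_iff hb hab] at hx
  intro H hH haH hbH
  have := hx (g.symm '' H) (hg'.1 H hH) ⟨g a, haH, by simp⟩ (by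
    intro t ht
    rw [Equiv.image_eq_preimage_symm, Equiv.symm_symm] at ht
    obtain ⟨s, hs⟩ := (hg.image_smul hg' h0 hb).mpr ⟨t, rfl⟩
    have ht' : g (t • b) ∈ H := ht
    rw [hs] at ht'
    exact hbH s ht')
  rw [Equiv.image_eq_preimage_symm, Equiv.symm_symm] at this
  exact this

theorem Good.add_indep (hg : Good g) (hg' : Good g.symm) (h0 : g 0 = 0) {a b : E} (ha : a ≠ 0)
    (hb : b ≠ 0) (hab : ¬ ∃ t : ℝ, a = t • b) : g (a + b) = g a + g b := by
  have hba : ¬ ∃ t : ℝ, b = t • a := by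
    rintro ⟨t, ht⟩
    have ht0 : t ≠ 0 := by rintro rfl; rw [zero_smul] at ht; exact hb ht
    exact hab ⟨t⁻¹, by rw [ht, smul_smul, inv_mul_cancel₀ ht0, one_smul]⟩
  obtain ⟨t, ht⟩ := hg.image_line hg' h0 hb hab (x := a + b) ⟨1, by rw [one_smul]⟩
  obtain ⟨s, hs⟩ := hg.image_line hg' h0 ha hba (x := a + b) ⟨1, by rw [one_smul, add_comm]⟩
  have hgab : ¬ ∃ t : ℝ, g a = t • g b := by rwa [hg.image_smul hg' h0 hb]
  have hgb : g b ≠ 0 := by rw [← h0]; exact g.injective.ne hb
  have h1 : (1 - s) • g a = (1 - t) • g b := by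
    have h3 : g a + t • g b = g b + s • g a := ht.symm.trans hs
    rw [sub_smul, sub_smul, one_smul, one_smul]
    rw [sub_eq_sub_iff_add_eq_add, h3]
  by_cases hs1 : 1 - s = 0
  · rw [hs1, zero_smul] at h1
    rcases smul_eq_zero.mp h1.symm with h3 | h3
    · rw [ht, show t = 1 by linarith, one_smul]
    · exact absurd h3 hgb
  · exact absurd ⟨(1 - s)⁻¹ * (1 - t), by
      rw [mul_smul, ← h1, smul_smul, inv_mul_cancel₀ hs1, one_smul]⟩ hgab

theorem exists_indep (h2 : 2 ≤ finrank ℝ E) {a : E} (ha : a ≠ 0) :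
    ∃ c : E, c ≠ 0 ∧ ∀ x : E, (∃ t : ℝ, x = t • a) → x ≠ 0 → ¬ ∃ t : ℝ, x = t • c := by
  obtain ⟨c, hc, hac⟩ := exists_orth h2 a
  refine ⟨c, hc, ?_⟩
  rintro x ⟨t, rfl⟩ hx ⟨s, hs⟩
  have h1 : inner ℝ a (t • a) = 0 := by rw [hs, inner_smul_right, hac, mul_zero]
  rw [inner_smul_right, real_inner_self_eq_norm_sq] at h1
  have h3 := norm_pos_iff.mpr ha
  rcases mul_eq_zero.mp h1 with h4 | h4
  · exact hx (by rw [h4, zero_smul])
  · exact absurd h4 (by positivity)

theorem Good.add (h2 : 2 ≤ finrank ℝ E) (hg : Good g) (hg' : Good g.symm) (h0 : g 0 = 0)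
    (a b : E) : g (a + b) = g a + g b := by
  by_cases ha : a = 0
  · rw [ha, h0, zero_add, zero_add]
  by_cases hb : b = 0
  · rw [hb, h0, add_zero, add_zero]
  by_cases hab : ∃ t : ℝ, a = t • b
  · obtain ⟨t, ht⟩ := hab
    obtain ⟨c, hc, hcb⟩ := exists_indep h2 hb
    have hb1 : ¬ ∃ t : ℝ, b = t • c := hcb b ⟨1, by rw [one_smul]⟩ hb
    have h1 : g (b + c) = g b + g c := hg.add_indep hg' h0 hb hc hb1
    have hbc : b + c ≠ 0 := by
      intro h
      exact hb1 ⟨-1, by rw [neg_smul, one_smul]; exact eq_neg_of_add_eq_zero_left h⟩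
    have hind : ¬ ∃ s : ℝ, a = s • (b + c) := by
      rintro ⟨s, hs⟩
      have hs0 : s ≠ 0 := by rintro rfl; rw [zero_smul] at hs; exact ha hs
      by_cases hts : t = s
      · rw [ht, hts, smul_add] at hs
        have h3 : s • c = 0 := by simpa using hs
        rcases smul_eq_zero.mp h3 with h4 | h4
        · exact hs0 h4
        · exact hc h4
      · have h3 : (t - s) • b = s • c := by rw [sub_smul, ← ht, hs, smul_add]; abel
        exact hb1 ⟨(t - s)⁻¹ * s, by
          rw [mul_smul, ← h3, smul_smul, inv_mul_cancel₀ (sub_ne_zero.mpr hts), one_smul]⟩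
    have h3 : g (a + (b + c)) = g a + g (b + c) := hg.add_indep hg' h0 ha hbc hind
    rw [h1] at h3
    by_cases hab0 : a + b = 0
    · have h4 : a + (b + c) = c := by rw [← add_assoc, hab0, zero_add]
      rw [h4] at h3
      rw [hab0, h0]
      have h5 : g a + g b + g c = 0 + g c := by rw [zero_add, add_assoc]; exact h3.symm
      exact (add_right_cancel h5).symm
    · have h4 : g ((a + b) + c) = g (a + b) + g c := by
        apply hg.add_indep hg' h0 hab0 hc
        apply hcb _ ⟨t + 1, ?_⟩ hab0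
        rw [ht, add_smul, one_smul]
      rw [add_assoc, h3, ← add_assoc] at h4
      exact (add_right_cancel h4).symm
  · exact hg.add_indep hg' h0 ha hb hab

end additive

theorem Good.trans_sub {g : E ≃ E} (hg : Good g) (b : E) :
    Good (g.trans (Equiv.addRight (-b))) := by
  constructor
  · intro H hH
    obtain ⟨w, a, hw, h⟩ := hg.1 H hH
    refine ⟨w, a - inner ℝ w b, hw, ?_⟩
    rw [Equiv.coe_trans, Set.image_comp, h, Equiv.image_eq_preimage_symm]
    ext x
    simp only [Set.mem_preimage, Set.mem_ofPred_eq, Equiv.addRight_symm, neg_neg,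
      Equiv.coe_addRight, inner_add_right]
    constructor <;> intro h <;> linarith
  · intro S hS
    obtain ⟨u, r, hr, h⟩ := hg.2 S hS
    refine ⟨u - b, r, hr, ?_⟩
    rw [Equiv.coe_trans, Set.image_comp, h, Equiv.image_eq_preimage_symm]
    ext x
    simp only [Set.mem_preimage, mem_sphere, Equiv.addRight_symm, neg_neg,
      Equiv.coe_addRight, dist_eq_norm]
    rw [show x + b - u = x - (u - b) by abel]

theorem Good.add_trans {g : E ≃ E} (hg : Good g) (b : E) :
    Good ((Equiv.addRight b).trans g) := by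
  constructor
  · rintro H ⟨w, a, hw, rfl⟩
    rw [Equiv.coe_trans, Set.image_comp]
    apply hg.1
    refine ⟨w, a + inner ℝ w b, hw, ?_⟩
    rw [Equiv.image_eq_preimage_symm]
    ext x
    simp only [Set.mem_preimage, Set.mem_ofPred_eq, Equiv.addRight_symm,
      Equiv.coe_addRight, inner_add_right, inner_neg_right]
    constructor <;> intro h <;> linarith
  · rintro S ⟨u, r, hr, rfl⟩
    rw [Equiv.coe_trans, Set.image_comp]
    apply hg.2
    refine ⟨u + b, r, hr, ?_⟩
    rw [Equiv.image_eq_preimage_symm]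
    ext x
    simp only [Set.mem_preimage, mem_sphere, Equiv.addRight_symm,
      Equiv.coe_addRight, dist_eq_norm]
    rw [show x + -b - u = x - (u + b) by abel]

theorem exists_sim [FiniteDimensional ℝ E] (h2 : 2 ≤ finrank ℝ E) {g : E ≃ E} (hg : Good g)
    (hg' : Good g.symm) : ∃ (g0 : E →ₗ[ℝ] E) (l : ℝ), 0 < l ∧ (∀ y, g y = g0 y + g 0) ∧
      ∀ y, ‖g0 y‖ = l * ‖y‖ := by
  set k : E ≃ E := g.trans (Equiv.addRight (-(g 0))) with hk
  have hkg : Good k := hg.trans_sub _
  have hkg' : Good k.symm := by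
    have : k.symm = (Equiv.addRight (g 0)).trans g.symm := by
      rw [hk]
      ext x
      simp
    rw [this]
    exact hg'.add_trans _
  have hk0 : k 0 = 0 := by simp [hk]
  have hkc : Continuous k := hkg.continuous h2 hkg'
  have hadd := hkg.add h2 hkg' hk0
  let f : E →+ E := { toFun := k, map_zero' := hk0, map_add' := hadd }
  let L : E →L[ℝ] E := f.toRealLinearMap hkc
  have hL : ∀ y, L y = k y := fun y => rfl
  obtain ⟨u, r, hr, hS⟩ := hkg.2 (sphere 0 1) ⟨0, 1, one_pos, rfl⟩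
  -- the centre is 0
  have hu : u = 0 := by
    obtain ⟨e, he0, -⟩ := exists_orth h2 (0 : E)
    have hmem : ∀ v : E, ‖v‖ = r → ‖v + (2:ℝ) • u‖ = r := by
      intro v hv
      have h1 : u + v ∈ k '' sphere (0:E) 1 := by
        rw [hS, mem_sphere, dist_eq_norm]; simpa using hv
      obtain ⟨z, hz, hzv⟩ := h1
      have h3 : k (-z) ∈ sphere u r := by
        rw [← hS]; exact ⟨-z, by simpa using hz, rfl⟩
      have h4 : k (-z) = -(u + v) := by
        rw [← hL, map_neg, hL, hzv]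
      rw [h4, mem_sphere, dist_eq_norm] at h3
      rw [← h3, ← norm_neg]
      congr 1
      module
    have he : 0 < ‖e‖ := norm_pos_iff.mpr he0
    have hv : ‖(r / ‖e‖) • e‖ = r := by
      rw [norm_smul, Real.norm_of_nonneg (by positivity)]; field_simp
    have hv' : ‖-((r / ‖e‖) • e)‖ = r := by rw [norm_neg, hv]
    have h1 := hmem _ hv
    have h3 := hmem _ hv'
    have h4 := norm_add_sq_real ((r / ‖e‖) • e) ((2:ℝ) • u)
    have h5 := norm_add_sq_real (-((r / ‖e‖) • e)) ((2:ℝ) • u)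
    rw [h1, hv] at h4
    rw [h3, hv', inner_neg_left] at h5
    have h6 : ‖(2:ℝ) • u‖ ^ 2 = 0 := by linarith
    have h7 : (2:ℝ) • u = 0 := by
      rw [← norm_eq_zero]
      exact pow_eq_zero_iff (two_ne_zero) |>.mp h6
    simpa using h7
  subst hu
  refine ⟨L.toLinearMap, r, hr, ?_, ?_⟩
  · intro y
    show g y = k y + g 0
    simp [hk]
  · intro y
    show ‖L y‖ = r * ‖y‖
    by_cases hy : y = 0
    · rw [hy, map_zero, norm_zero, mul_zero]
    have hy' : 0 < ‖y‖ := norm_pos_iff.mpr hy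
    have h1 : k ((1 / ‖y‖) • y) ∈ sphere (0:E) r := by
      rw [← hS]
      refine ⟨_, ?_, rfl⟩
      rw [mem_sphere_zero_iff_norm, norm_smul, Real.norm_of_nonneg (by positivity)]
      field_simp
    rw [mem_sphere_zero_iff_norm, ← hL, map_smul, norm_smul,
      Real.norm_of_nonneg (by positivity)] at h1
    rw [div_mul_eq_mul_div, one_mul, div_eq_iff hy'.ne'] at h1
    exact h1

end Pool.Agent.Q107.SphG
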