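import Pool.Agent.Q107.SphG.Sim

/-! Bijections of the sphere which preserve hyperplane sections are induced by linear maps of
`V × ℝ`. -/

namespace Pool.Agent.Q107.SphG

open Metric Module

variable {V : Type*} [NormedAddCommGroup V] [InnerProductSpace ℝ V]

/-- `F` maps hyperplane sections of the sphere to hyperplane sections. -/
def DP (F : sphere (0 : V) 1 ≃ sphere (0 : V) 1) : Prop :=
  ∀ (n : V) (c : ℝ), |c| < ‖n‖ → ∃ (n' : V) (c' : ℝ), |c'| < ‖n'‖ ∧
    ∀ p : sphere (0 : V) 1, inner ℝ n (p : V) = c ↔ inner ℝ n' (F p : V) = c'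

/-- `L` induces `F`. -/
def Rep (F : sphere (0 : V) 1 → sphere (0 : V) 1) (L : V × ℝ →ₗ[ℝ] V × ℝ) : Prop :=
  ∀ p : sphere (0 : V) 1, ∃ μ : ℝ, 0 < μ ∧ L ((p : V), 1) = μ • ((F p : V), (1 : ℝ))

section fix

variable (N : V) (hN : ‖N‖ = 1)

/-- the equator -/
noncomputable abbrev E0 : Submodule ℝ V := (ℝ ∙ N)ᗮ

variable {N}

theorem inner_E0 (y : E0 N) : inner ℝ N (y : V) = 0 :=
  Submodule.mem_orthogonal_singleton_iff_inner_right.mp y.2

theorem inner_E0' (y : E0 N) : inner ℝ (y : V) N = 0 := by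
  rw [real_inner_comm]; exact inner_E0 y

include hN

theorem innerN : inner ℝ N N = (1:ℝ) := by rw [real_inner_self_eq_norm_sq, hN, one_pow]

omit hN in
variable (N) in
/-- inverse stereographic projection -/
noncomputable def sv (y : E0 N) : V :=
  (‖y‖ ^ 2 + 1)⁻¹ • ((2:ℝ) • (y : V) + (‖y‖ ^ 2 - 1) • N)

omit hN in
theorem inner_sv (n : V) (y : E0 N) : inner ℝ n (sv N y) =
    (‖y‖ ^ 2 + 1)⁻¹ * (2 * inner ℝ n (y : V) + (‖y‖ ^ 2 - 1) * inner ℝ n N) := by
  unfold sv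
  rw [inner_smul_right, inner_add_right, inner_smul_right, inner_smul_right]

theorem norm_sv (y : E0 N) : ‖sv N y‖ = 1 := by
  have h1 : ‖(2:ℝ) • (y : V) + (‖y‖ ^ 2 - 1) • N‖ ^ 2 = (‖y‖ ^ 2 + 1) ^ 2 := by
    rw [norm_add_sq_real, inner_smul_left, inner_smul_right, inner_E0', norm_smul, norm_smul, hN,
      Submodule.coe_norm]
    simp only [Real.norm_eq_abs, mul_one, sq_abs, mul_zero]
    rw [mul_pow, sq_abs]
    ring
  have h3 : ‖(2:ℝ) • (y : V) + (‖y‖ ^ 2 - 1) • N‖ = ‖y‖ ^ 2 + 1 := by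
    have h4 : (0:ℝ) ≤ ‖y‖ ^ 2 + 1 := by positivity
    exact (pow_left_inj₀ (norm_nonneg _) h4 two_ne_zero).mp h1
  unfold sv
  rw [norm_smul, h3, norm_inv, Real.norm_of_nonneg (by positivity)]
  exact inv_mul_cancel₀ (by positivity)

theorem innerN_sv (y : E0 N) : inner ℝ N (sv N y) = (‖y‖ ^ 2 + 1)⁻¹ * (‖y‖ ^ 2 - 1) := by
  rw [inner_sv, inner_E0, innerN hN]; ring

/-- the point of the sphere -/
noncomputable def s (y : E0 N) : sphere (0 : V) 1 :=
  ⟨sv N y, by rw [mem_sphere_zero_iff_norm]; exact norm_sv hN y⟩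

/-- projection to the equator -/
noncomputable def P : V →ₗ[ℝ] E0 N :=
  LinearMap.codRestrict (E0 N) (LinearMap.id - ((innerSL ℝ N).toLinearMap).smulRight N) (by
    intro x
    rw [Submodule.mem_orthogonal_singleton_iff_inner_right]
    simp [inner_sub_right, inner_smul_right, hN])

theorem P_apply (x : V) : ((P hN x : E0 N) : V) = x - inner ℝ N x • N := by
  simp [P]

theorem inner_P (x : V) (y : E0 N) : inner ℝ (P hN x) y = inner ℝ x (y : V) := by
  rw [Submodule.coe_inner, P_apply, inner_sub_left, inner_smul_left, inner_E0]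
  simp

theorem norm_P_sq (x : V) : ‖P hN x‖ ^ 2 = ‖x‖ ^ 2 - (inner ℝ N x) ^ 2 := by
  rw [Submodule.coe_norm, P_apply, norm_sub_sq_real, inner_smul_right, norm_smul, hN,
    real_inner_comm]
  simp only [Real.norm_eq_abs, mul_one, sq_abs]
  ring

/-- stereographic projection -/
noncomputable def st (p : sphere (0 : V) 1) : E0 N := (1 - inner ℝ N (p : V))⁻¹ • P hN (p : V)

theorem st_s (y : E0 N) : st hN (s hN y) = y := by
  apply Subtype.ext
  have hpos : (0:ℝ) < ‖y‖ ^ 2 + 1 := by positivity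
  show ((st hN (s hN y) : E0 N) : V) = y
  have e1 : ((s hN y : sphere (0:V) 1) : V) = sv N y := rfl
  unfold st
  rw [Submodule.coe_smul, P_apply, e1, innerN_sv hN]
  have e2 : sv N y - ((‖y‖ ^ 2 + 1)⁻¹ * (‖y‖ ^ 2 - 1)) • N = (2 * (‖y‖ ^ 2 + 1)⁻¹) • (y : V) := by
    unfold sv; module
  rw [e2, smul_smul]
  have e3 : (1 - (‖y‖ ^ 2 + 1)⁻¹ * (‖y‖ ^ 2 - 1))⁻¹ * (2 * (‖y‖ ^ 2 + 1)⁻¹) = 1 := by
    have : 1 - (‖y‖ ^ 2 + 1)⁻¹ * (‖y‖ ^ 2 - 1) = 2 * (‖y‖ ^ 2 + 1)⁻¹ := by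
      field_simp; ring
    rw [this]
    exact inv_mul_cancel₀ (by positivity)
  rw [e3, one_smul]

theorem s_st {p : sphere (0 : V) 1} (hp : (p : V) ≠ N) : s hN (st hN p) = p := by
  apply Subtype.ext
  have hp1 : ‖(p : V)‖ = 1 := by simpa using p.2
  set a : ℝ := inner ℝ N (p : V) with ha
  have ha1 : a < 1 := inner_lt_one hN hp1.le (Ne.symm hp)
  have ha0 : 1 - a ≠ 0 := by linarith
  show sv N (st hN p) = p
  have h1 : ‖st hN p‖ ^ 2 = (1 + a) / (1 - a) := by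
    unfold st
    rw [norm_smul, mul_pow, norm_P_sq, hp1, Real.norm_eq_abs, sq_abs, ← ha]
    field_simp
    ring
  have h3 : ((st hN p : E0 N) : V) = (1 - a)⁻¹ • ((p : V) - a • N) := by
    unfold st
    rw [Submodule.coe_smul, P_apply]
  unfold sv
  rw [h1, h3]
  have e1 : ((1 + a) / (1 - a) + 1)⁻¹ = (1 - a) / 2 := by
    have : (1 + a) / (1 - a) + 1 = 2 / (1 - a) := by field_simp; ring
    rw [this, inv_div]
  have e2 : (1 + a) / (1 - a) - 1 = 2 * a / (1 - a) := by field_simp; ring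
  rw [e1, e2, smul_add, smul_smul, smul_smul, smul_smul]
  have e3 : (1 - a) / 2 * (2 * (1 - a)⁻¹) = 1 := by field_simp
  have e4 : (1 - a) / 2 * (2 * a / (1 - a)) = a := by field_simp
  rw [mul_comm 2 (1-a)⁻¹] at e3
  rw [show (1 - a) / 2 * 2 * (1 - a)⁻¹ = 1 by field_simp, e4, one_smul]
  abel

theorem s_ne (y : E0 N) : ((s hN y : sphere (0:V) 1) : V) ≠ N := by
  intro h
  have h1 : inner ℝ N (sv N y) = inner ℝ N N := by rw [show sv N y = N from h]
  rw [innerN_sv hN, innerN hN] at h1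
  have hpos : (0:ℝ) < ‖y‖ ^ 2 + 1 := by positivity
  field_simp at h1
  linarith

end fix

section map

variable {N : V} (hN : ‖N‖ = 1) (F : sphere (0 : V) 1 ≃ sphere (0 : V) 1)
  (hfix : (F ⟨N, by simpa using hN⟩ : V) = N)

include hN hfix in
theorem F_ne {p : sphere (0 : V) 1} (hp : (p : V) ≠ N) : (F p : V) ≠ N := by
  intro h
  have h1 : F p = F ⟨N, by simpa using hN⟩ := Subtype.ext (h.trans hfix.symm)
  apply hp
  rw [F.injective h1]

include hfix in
theorem symm_fix : (F.symm ⟨N, by simpa using hN⟩ : V) = N := by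
  have h1 : F ⟨N, by simpa using hN⟩ = ⟨N, by simpa using hN⟩ := Subtype.ext hfix
  have h3 : F.symm ⟨N, by simpa using hN⟩ = ⟨N, by simpa using hN⟩ := by
    rw [Equiv.symm_apply_eq, h1]
  rw [h3]

/-- the map of the equator in stereographic coordinates -/
noncomputable def gg : E0 N ≃ E0 N where
  toFun y := st hN (F (s hN y))
  invFun y := st hN (F.symm (s hN y))
  left_inv y := by
    show st hN (F.symm (s hN (st hN (F (s hN y))))) = y
    rw [s_st hN (F_ne hN F hfix (s_ne hN y)), Equiv.symm_apply_apply, st_s]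
  right_inv y := by
    show st hN (F (s hN (st hN (F.symm (s hN y))))) = y
    rw [s_st hN (F_ne hN F.symm (symm_fix hN F hfix) (s_ne hN y)), Equiv.apply_symm_apply, st_s]

theorem s_gg (y : E0 N) : s hN (gg hN F hfix y) = F (s hN y) :=
  s_st hN (F_ne hN F hfix (s_ne hN y))

theorem gg_symm : (gg hN F hfix).symm = gg hN F.symm (symm_fix hN F hfix) := by
  ext y; rfl

theorem eq_hyp {n : V} {c : ℝ} (h : inner ℝ n N = c) (y : E0 N) :
    inner ℝ n ((s hN y : sphere (0:V) 1) : V) = c ↔ inner ℝ n (y : V) = c := by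
  show inner ℝ n (sv N y) = c ↔ _
  rw [inner_sv, h]
  have hpos : (0:ℝ) < ‖y‖ ^ 2 + 1 := by positivity
  rw [inv_mul_eq_iff_eq_mul₀ hpos.ne']
  constructor <;> intro h' <;> linarith

theorem good_gg (hF : DP F) : Good (gg hN F hfix) := by
  constructor
  · rintro H ⟨w, a, hw, rfl⟩
    have hwn : 0 < ‖w‖ := norm_pos_iff.mpr hw
    have hn : |a| < ‖(w : V) + a • N‖ := by
      apply lt_of_pow_lt_pow_left₀ 2 (norm_nonneg _)
      rw [norm_add_sq_real, inner_smul_right, inner_E0', norm_smul, hN, ← Submodule.coe_norm]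
      simp only [Real.norm_eq_abs, mul_one, sq_abs, mul_zero, add_zero]
      nlinarith
    have hnN : inner ℝ ((w : V) + a • N) N = a := by
      rw [inner_add_left, inner_smul_left, inner_E0', innerN hN]; simp
    obtain ⟨n', c', hn', heq⟩ := hF _ _ hn
    have hn'N : inner ℝ n' N = c' := by
      have := (heq ⟨N, by simpa using hN⟩).mp hnN
      rwa [hfix] at this
    refine ⟨P hN n', c', ?_, ?_⟩
    · intro h0
      have h1 := norm_P_sq hN n'
      rw [h0, norm_zero, real_inner_comm, hn'N] at h1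
      have h3 : ‖n'‖ ^ 2 = |c'| ^ 2 := by rw [sq_abs]; linarith
      have h4 : |c'| ^ 2 < ‖n'‖ ^ 2 := by
        have := abs_nonneg c'
        gcongr
      linarith
    · rw [Equiv.image_eq_preimage_symm]
      ext y
      show inner ℝ w ((gg hN F hfix).symm y) = a ↔ inner ℝ (P hN n') y = c'
      rw [inner_P, ← eq_hyp hN hn'N y]
      have e1 : F (s hN ((gg hN F hfix).symm y)) = s hN y := by
        rw [← s_gg hN F hfix, Equiv.apply_symm_apply]
      rw [← e1, ← heq, eq_hyp hN hnN, inner_add_left, inner_smul_left, inner_E0,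
        Submodule.coe_inner]
      simp
  · rintro S ⟨u, r, hr, rfl⟩
    set β : ℝ := r ^ 2 - ‖u‖ ^ 2 with hβ
    set a : ℝ := (1 + β) / 2 with ha
    set c : ℝ := (β - 1) / 2 with hc
    set n : V := -(u : V) + a • N with hndef
    have hnsq : ‖n‖ ^ 2 = ‖u‖ ^ 2 + a ^ 2 := by
      rw [hndef, norm_add_sq_real, inner_smul_right, inner_neg_left, inner_E0', norm_smul, hN,
        norm_neg, ← Submodule.coe_norm]
      simp only [Real.norm_eq_abs, mul_one, sq_abs]
      ring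
    have hn : |c| < ‖n‖ := by
      apply lt_of_pow_lt_pow_left₀ 2 (norm_nonneg _)
      rw [hnsq, sq_abs, ha, hc]
      have : 0 < r ^ 2 := by positivity
      nlinarith
    have hnN : inner ℝ n N = a := by
      rw [hndef, inner_add_left, inner_smul_left, inner_neg_left, inner_E0', innerN hN]; simp
    obtain ⟨n', c', hn', heq⟩ := hF _ _ hn
    set a' : ℝ := inner ℝ n' N with ha'
    have hne : a' ≠ c' := by
      intro h
      have := (heq ⟨N, by simpa using hN⟩).mpr (by rw [hfix]; exact h)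
      rw [show (((⟨N, by simpa using hN⟩ : sphere (0:V) 1)) : V) = N from rfl, hnN] at this
      rw [ha, hc] at this
      linarith
    have hα : a' - c' ≠ 0 := sub_ne_zero.mpr hne
    have hP := norm_P_sq hN n'
    rw [real_inner_comm, ← ha'] at hP
    have hpos : 0 < ‖P hN n'‖ ^ 2 + (a' - c') * (a' + c') := by
      have h4 : |c'| ^ 2 < ‖n'‖ ^ 2 := by
        have := abs_nonneg c'
        gcongr
      rw [sq_abs] at h4
      nlinarith
    refine ⟨-((a' - c')⁻¹ • P hN n'),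
      Real.sqrt ((‖P hN n'‖ ^ 2 + (a' - c') * (a' + c')) / (a' - c') ^ 2), ?_, ?_⟩
    · apply Real.sqrt_pos.mpr
      positivity
    · rw [Equiv.image_eq_preimage_symm]
      ext y
      rw [Set.mem_preimage, mem_sphere, dist_eq_norm, mem_sphere, dist_eq_norm, sub_neg_eq_add]
      have e1 : F (s hN ((gg hN F hfix).symm y)) = s hN y := by
        rw [← s_gg hN F hfix, Equiv.apply_symm_apply]
      set z := (gg hN F hfix).symm y with hz
      have h1 := heq (s hN z)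
      rw [e1] at h1
      have e3 : inner ℝ n ((s hN z : sphere (0:V) 1) : V) = c ↔ ‖z - u‖ = r := by
        show inner ℝ n (sv N z) = c ↔ _
        have hzp : (0:ℝ) < ‖z‖ ^ 2 + 1 := by positivity
        rw [inner_sv, hnN, inv_mul_eq_iff_eq_mul₀ hzp.ne', hndef, inner_add_left, inner_smul_left,
          inner_neg_left, inner_E0, ← Submodule.coe_inner, ← pow_left_inj₀ (norm_nonneg _) hr.le
          two_ne_zero, norm_sub_sq_real, real_inner_comm]
        simp only [mul_zero, add_zero]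
        rw [ha, hc, hβ]
        constructor <;> intro h' <;> linarith
      have e4 : inner ℝ n' ((s hN y : sphere (0:V) 1) : V) = c' ↔
          ‖y + (a' - c')⁻¹ • P hN n'‖ =
            Real.sqrt ((‖P hN n'‖ ^ 2 + (a' - c') * (a' + c')) / (a' - c') ^ 2) := by
        show inner ℝ n' (sv N y) = c' ↔ _
        have hyp : (0:ℝ) < ‖y‖ ^ 2 + 1 := by positivity
        rw [inner_sv, ← ha', inv_mul_eq_iff_eq_mul₀ hyp.ne', ← inner_P hN,
          ← pow_left_inj₀ (norm_nonneg (y + _)) (Real.sqrt_nonneg _) two_ne_zero,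
          Real.sq_sqrt (by positivity), norm_add_sq_real, inner_smul_right, norm_smul, mul_pow,
          Real.norm_eq_abs, sq_abs, real_inner_comm, eq_div_iff (by positivity)]
        have e5 : (‖y‖ ^ 2 + 2 * ((a' - c')⁻¹ * inner ℝ y (P hN n')) +
            (a' - c')⁻¹ ^ 2 * ‖P hN n'‖ ^ 2) * (a' - c') ^ 2 =
            (a' - c') ^ 2 * ‖y‖ ^ 2 + 2 * (a' - c') * inner ℝ y (P hN n') + ‖P hN n'‖ ^ 2 := by
          field_simp
        rw [e5]
        constructor
        · intro h'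
          have h3 : (a' - c') * ‖y‖ ^ 2 + 2 * inner ℝ y (P hN n') = a' + c' := by linarith
          rw [← h3]; ring
        · intro h'
          have h3 : (a' - c') * ((a' - c') * ‖y‖ ^ 2 + 2 * inner ℝ y (P hN n') - (a' + c')) = 0 := by
            linarith
          rcases mul_eq_zero.mp h3 with h4 | h4
          · exact absurd h4 hα
          · linarith
      rw [← e3, ← e4, h1]

include hfix in
theorem exists_rep_fix [FiniteDimensional ℝ V] (h3 : 3 ≤ finrank ℝ V) (hF : DP F)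
    (hF' : DP F.symm) : ∃ L : V × ℝ →ₗ[ℝ] V × ℝ, Rep F L := by
  have h2 : 2 ≤ finrank ℝ (E0 N) := by
    have h1 : finrank ℝ (ℝ ∙ N) ≤ 1 := by
      refine (finrank_span_le_card ({N} : Set V)).trans ?_
      simp
    have h4 := Submodule.finrank_add_finrank_orthogonal (ℝ ∙ N)
    show 2 ≤ finrank ℝ (ℝ ∙ N)ᗮ
    omega
  have hg := good_gg hN F hfix hF
  have hg' : Good (gg hN F hfix).symm := by
    rw [gg_symm]
    exact good_gg hN F.symm (symm_fix hN F hfix) hF'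
  obtain ⟨g0, l, hl, hg0, hnorm⟩ := exists_sim h2 hg hg'
  set b : E0 N := gg hN F hfix 0 with hb
  let iN : V →ₗ[ℝ] ℝ := (innerSL ℝ N).toLinearMap
  let f1 : V × ℝ →ₗ[ℝ] V := LinearMap.fst ℝ V ℝ
  let f2 : V × ℝ →ₗ[ℝ] ℝ := LinearMap.snd ℝ V ℝ
  let δ : V × ℝ →ₗ[ℝ] ℝ := f2 - iN ∘ₗ f1
  let A : V × ℝ →ₗ[ℝ] E0 N := g0 ∘ₗ (P hN) ∘ₗ f1 + δ.smulRight b
  let X : V × ℝ →ₗ[ℝ] ℝ := (l ^ 2 / 2) • (iN ∘ₗ f1 + f2) +
    ((innerSL ℝ b).toLinearMap ∘ₗ g0 ∘ₗ (P hN) ∘ₗ f1) + (‖b‖ ^ 2 / 2) • δ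
  let L : V × ℝ →ₗ[ℝ] V × ℝ :=
    LinearMap.prod ((E0 N).subtype ∘ₗ A + (X - (1/2:ℝ) • δ).smulRight N) (X + (1/2:ℝ) • δ)
  have hL1 : ∀ x τ, (L (x, τ)).1 = ((g0 (P hN x) : E0 N) : V) + (τ - inner ℝ N x) • (b : V) +
      (X (x, τ) - (1/2) * (τ - inner ℝ N x)) • N := by
    intro x τ
    simp [L, A, δ, iN, f1, f2]
  have hL2 : ∀ x τ, (L (x, τ)).2 = X (x, τ) + (1/2) * (τ - inner ℝ N x) := by
    intro x τ
    simp [L, δ, iN, f1, f2]
  have hX : ∀ x τ, X (x, τ) = l ^ 2 / 2 * (inner ℝ N x + τ) + inner ℝ b (g0 (P hN x)) +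
      ‖b‖ ^ 2 / 2 * (τ - inner ℝ N x) := by
    intro x τ
    simp [X, δ, iN, f1, f2]
    ring
  refine ⟨L, fun p => ?_⟩
  by_cases hp : (p : V) = N
  · have hp' : p = ⟨N, by simpa using hN⟩ := Subtype.ext hp
    have hFp : (F p : V) = N := by rw [hp', hfix]
    have hPN : P hN N = 0 := by
      apply Subtype.ext
      rw [P_apply, innerN hN, one_smul, sub_self]; rfl
    refine ⟨l ^ 2, by positivity, ?_⟩
    have hXN : X (N, 1) = l ^ 2 := by
      rw [hX, hPN, map_zero, inner_zero_right, innerN hN]; ring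
    rw [hp, hFp]
    refine Prod.ext ?_ ?_
    · rw [hL1, hPN, map_zero, hXN, innerN hN]
      simp
    · rw [hL2, hXN, innerN hN]
      simp
  · set y : E0 N := st hN p with hy
    have hsy : s hN y = p := s_st hN hp
    have hFp : F p = s hN (gg hN F hfix y) := by rw [s_gg, hsy]
    set y' : E0 N := gg hN F hfix y with hy'
    have hyy : y' = g0 y + b := hg0 y
    have hpos : (0:ℝ) < ‖y‖ ^ 2 + 1 := by positivity
    have hpos' : (0:ℝ) < ‖y'‖ ^ 2 + 1 := by positivity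
    refine ⟨(‖y‖ ^ 2 + 1)⁻¹ * (‖y'‖ ^ 2 + 1), by positivity, ?_⟩
    have e1 : ((p : V), (1:ℝ)) = (‖y‖ ^ 2 + 1)⁻¹ •
        ((2:ℝ) • (y : V) + (‖y‖ ^ 2 - 1) • N, ‖y‖ ^ 2 + 1) := by
      refine Prod.ext ?_ ?_
      · show (p : V) = (‖y‖ ^ 2 + 1)⁻¹ • ((2:ℝ) • (y : V) + (‖y‖ ^ 2 - 1) • N)
        rw [← hsy]; rfl
      · show (1:ℝ) = (‖y‖ ^ 2 + 1)⁻¹ • (‖y‖ ^ 2 + 1)
        rw [smul_eq_mul, inv_mul_cancel₀ hpos.ne']
    have e2 : ((F p : V), (1:ℝ)) = (‖y'‖ ^ 2 + 1)⁻¹ •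
        ((2:ℝ) • (y' : V) + (‖y'‖ ^ 2 - 1) • N, ‖y'‖ ^ 2 + 1) := by
      refine Prod.ext ?_ ?_
      · show (F p : V) = (‖y'‖ ^ 2 + 1)⁻¹ • ((2:ℝ) • (y' : V) + (‖y'‖ ^ 2 - 1) • N)
        rw [hFp]; rfl
      · show (1:ℝ) = (‖y'‖ ^ 2 + 1)⁻¹ • (‖y'‖ ^ 2 + 1)
        rw [smul_eq_mul, inv_mul_cancel₀ hpos'.ne']
    have hi : inner ℝ N ((2:ℝ) • (y : V) + (‖y‖ ^ 2 - 1) • N) = ‖y‖ ^ 2 - 1 := by
      rw [inner_add_right, inner_smul_right, inner_smul_right, inner_E0, innerN hN]; ring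
    have hPy : P hN ((2:ℝ) • (y : V) + (‖y‖ ^ 2 - 1) • N) = (2:ℝ) • y := by
      apply Subtype.ext
      rw [P_apply, hi]
      simp
    have hy'sq : ‖y'‖ ^ 2 = l ^ 2 * ‖y‖ ^ 2 + 2 * inner ℝ b (g0 y) + ‖b‖ ^ 2 := by
      rw [hyy, norm_add_sq_real, hnorm, real_inner_comm]; ring
    have hXy : X ((2:ℝ) • (y : V) + (‖y‖ ^ 2 - 1) • N, ‖y‖ ^ 2 + 1) = ‖y'‖ ^ 2 := by
      rw [hX, hi, hPy, map_smul, inner_smul_right, hy'sq]; ring
    rw [e1, e2, map_smul, smul_smul, mul_assoc, mul_inv_cancel₀ hpos'.ne', mul_one]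
    congr 1
    refine Prod.ext ?_ ?_
    · rw [hL1, hXy, hi, hPy, map_smul, hyy]
      push_cast
      module
    · rw [hL2, hXy, hi]
      ring

end map

end Pool.Agent.Q107.SphG
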